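import Mathlib

/-! Integer points on lines and conics. -/

namespace Pool.Agent.H15D

theorem conic_key (a b c d e f x y : ℤ) :
    (b ^ 2 - 4 * a * c) ^ 2 * (a * x ^ 2 + b * x * y + c * y ^ 2 + d * x + e * y + f) =
      (a * ((b ^ 2 - 4 * a * c) * x - (2 * c * d - b * e)) ^ 2 +
        b * ((b ^ 2 - 4 * a * c) * x - (2 * c * d - b * e)) *
          ((b ^ 2 - 4 * a * c) * y - (2 * a * e - b * d)) +
        c * ((b ^ 2 - 4 * a * c) * y - (2 * a * e - b * d)) ^ 2) +
      (b ^ 2 - 4 * a * c) *
        ((b ^ 2 - 4 * a * c) * f + a * e ^ 2 - b * d * e + c * d ^ 2) := by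
  ring

/-- If a line has an integer point then it has infinitely many. -/
theorem line_infinite {A B C : ℤ} (hAB : A ≠ 0 ∨ B ≠ 0) {x y : ℤ} (h : A * x + B * y + C = 0) :
    {p : ℤ × ℤ | A * p.1 + B * p.2 + C = 0}.Infinite := by
  have hinj : Function.Injective (fun t : ℤ => ((x + B * t, y - A * t) : ℤ × ℤ)) := by
    intro t t' htt
    simp only [Prod.mk.injEq, add_right_inj, sub_right_inj] at htt
    rcases hAB with h0 | h0
    · exact mul_left_cancel₀ h0 htt.2
    · exact mul_left_cancel₀ h0 htt.1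
  apply (Set.infinite_range_of_injective hinj).mono
  rintro _ ⟨t, rfl⟩
  change A * (x + B * t) + B * (y - A * t) + C = 0
  linear_combination h

theorem isSquare_of_mul {D p q : ℤ} (hq : q ≠ 0) (h : p ^ 2 = D * q ^ 2) : IsSquare D := by
  have h1 : q ^ 2 ∣ p ^ 2 := ⟨D, by rw [h]; ring⟩
  have h2 : q ∣ p := (Int.pow_dvd_pow_iff two_ne_zero).1 h1
  obtain ⟨r, rfl⟩ := h2
  refine ⟨r, ?_⟩
  have h3 : q ^ 2 ≠ 0 := pow_ne_zero 2 hq
  apply mul_right_cancel₀ h3
  linear_combination -h

/-- Pell equations have arbitrarily large solutions congruent to `(1, 0)`. -/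
theorem pell_large {D : ℤ} (hD : 0 < D) (hns : ¬ IsSquare D) (N : ℤ) (hN : 0 < N) :
    ∃ σ τ : ℤ, (1 + D * σ) ^ 2 - D * (D * τ) ^ 2 = 1 ∧ N ≤ |τ| := by
  have hk : D * N ≠ 0 := by positivity
  have h1 : 0 < D * (D * N) ^ 2 := by positivity
  have h2 : ¬ IsSquare (D * (D * N) ^ 2) := by
    rintro ⟨r, hr⟩
    exact hns (isSquare_of_mul hk (by rw [hr]; ring : r ^ 2 = D * (D * N) ^ 2))
  obtain ⟨s, y, hs, hy⟩ := Pell.exists_of_not_isSquare h1 h2
  -- s^2 - D (D N y)^2 = 1; square it
  refine ⟨2 * (D * N * y) ^ 2, 2 * s * (N * y), ?_, ?_⟩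
  · have e : s ^ 2 = 1 + D * (D * N) ^ 2 * y ^ 2 := by linear_combination hs
    have e2 : (D * (2 * s * (N * y))) ^ 2 = 4 * s ^ 2 * (D * N * y) ^ 2 := by ring
    rw [e2, e]
    ring
  · have hs0 : s ≠ 0 := by
      rintro rfl
      have : 0 ≤ D * (D * N) ^ 2 * y ^ 2 := by positivity
      linarith
    have h3 : 1 ≤ |s| := Int.one_le_abs hs0
    have h4 : 1 ≤ |y| := Int.one_le_abs hy
    rw [abs_mul, abs_mul, abs_mul, abs_of_pos hN]
    have h5 : |(2 : ℤ)| = 2 := rfl
    rw [h5]
    nlinarith [mul_le_mul h3 h4 (by norm_num) (abs_nonneg s)]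

theorem hyperbola_infinite {a b c d e f : ℤ} (hD : 0 < b ^ 2 - 4 * a * c)
    (hns : ¬ IsSquare (b ^ 2 - 4 * a * c))
    (hM : (b ^ 2 - 4 * a * c) * f + a * e ^ 2 - b * d * e + c * d ^ 2 ≠ 0) {x y : ℤ}
    (h : a * x ^ 2 + b * x * y + c * y ^ 2 + d * x + e * y + f = 0) :
    {p : ℤ × ℤ | a * p.1 ^ 2 + b * p.1 * p.2 + c * p.2 ^ 2 + d * p.1 + e * p.2 + f = 0}.Infinite := by
  intro hfin
  set D := b ^ 2 - 4 * a * c with hDdef
  set α := 2 * c * d - b * e with hα
  set β := 2 * a * e - b * d with hβ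
  set U := D * x - α with hU
  set V := D * y - β with hV
  have hkey := conic_key a b c d e f
  simp only [← hDdef, ← hα, ← hβ] at hkey
  have hQ0 : a * U ^ 2 + b * U * V + c * V ^ 2 ≠ 0 := by
    intro h0
    have := hkey x y
    rw [h, ← hU, ← hV, h0, mul_zero, zero_add] at this
    rcases mul_eq_zero.1 this.symm with h1 | h1
    · exact hD.ne' h1
    · exact hM h1
  -- a bound for a linear function on the finite set
  obtain ⟨Bd, hBd⟩ := (hfin.image fun p : ℤ × ℤ => |U * (D * p.2 - β) - V * (D * p.1 - α)|).bddAbove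
  have hB : ∀ x' y' : ℤ, a * x' ^ 2 + b * x' * y' + c * y' ^ 2 + d * x' + e * y' + f = 0 →
      |U * (D * y' - β) - V * (D * x' - α)| ≤ Bd := by
    intro x' y' h'
    exact hBd ⟨(x', y'), h', rfl⟩
  obtain ⟨σ, τ, hpell, hτ⟩ := pell_large hD hns (|Bd| + 1) (by positivity)
  have hx' : a * (x + (σ * U - b * τ * U - 2 * c * τ * V)) ^ 2 +
      b * (x + (σ * U - b * τ * U - 2 * c * τ * V)) *
        (y + (2 * a * τ * U + σ * V + b * τ * V)) +
      c * (y + (2 * a * τ * U + σ * V + b * τ * V)) ^ 2 +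
      d * (x + (σ * U - b * τ * U - 2 * c * τ * V)) +
      e * (y + (2 * a * τ * U + σ * V + b * τ * V)) + f = 0 := by
    have h2 := hkey (x + (σ * U - b * τ * U - 2 * c * τ * V))
      (y + (2 * a * τ * U + σ * V + b * τ * V))
    have h3 := hkey x y
    rw [h, ← hU, ← hV, mul_zero] at h3
    have e1 : D * (x + (σ * U - b * τ * U - 2 * c * τ * V)) - α =
        ((1 + D * σ) - b * (D * τ)) * U - 2 * c * (D * τ) * V := by rw [hU]; ring
    have e2 : D * (y + (2 * a * τ * U + σ * V + b * τ * V)) - β =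
        2 * a * (D * τ) * U + ((1 + D * σ) + b * (D * τ)) * V := by rw [hV]; ring
    rw [e1, e2] at h2
    have e3 : ∀ s t : ℤ, a * ((s - b * t) * U - 2 * c * t * V) ^ 2 +
        b * ((s - b * t) * U - 2 * c * t * V) * (2 * a * t * U + (s + b * t) * V) +
        c * (2 * a * t * U + (s + b * t) * V) ^ 2 =
        (s ^ 2 - (b ^ 2 - 4 * a * c) * t ^ 2) * (a * U ^ 2 + b * U * V + c * V ^ 2) := by
      intro s t; ring
    rw [e3, ← hDdef, hpell, one_mul, ← h3] at h2
    rcases mul_eq_zero.1 h2 with h4 | h4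
    · exact absurd h4 (pow_ne_zero 2 hD.ne')
    · exact h4
  have h5 := hB _ _ hx'
  have e4 : U * (D * (y + (2 * a * τ * U + σ * V + b * τ * V)) - β) -
      V * (D * (x + (σ * U - b * τ * U - 2 * c * τ * V)) - α) =
      2 * D * τ * (a * U ^ 2 + b * U * V + c * V ^ 2) := by
    have e5 : D * (y + (2 * a * τ * U + σ * V + b * τ * V)) - β =
      V + D * (2 * a * τ * U + σ * V + b * τ * V) := by rw [hV]; ring
    have e6 : D * (x + (σ * U - b * τ * U - 2 * c * τ * V)) - α =
      U + D * (σ * U - b * τ * U - 2 * c * τ * V) := by rw [hU]; ring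
    rw [e5, e6]
    ring
  rw [e4, abs_mul, abs_mul, abs_mul] at h5
  have h6 : 1 ≤ |D| := Int.one_le_abs hD.ne'
  have h7 : 1 ≤ |a * U ^ 2 + b * U * V + c * V ^ 2| := Int.one_le_abs hQ0
  have h8 : |(2 : ℤ)| = 2 := rfl
  rw [h8] at h5
  have h9 : |Bd| + 1 ≤ |D| * |τ| := hτ.trans (le_mul_of_one_le_left (abs_nonneg τ) h6)
  have h11 : 0 ≤ 2 * |D| * |τ| := by positivity
  have h10 : 2 * |D| * |τ| ≤ 2 * |D| * |τ| * |a * U ^ 2 + b * U * V + c * V ^ 2| :=
    le_mul_of_one_le_right h11 h7
  have h12 : 2 * |D| * |τ| = 2 * (|D| * |τ|) := by ring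
  have h13 := le_abs_self Bd
  have h14 := abs_nonneg Bd
  linarith

theorem abs_le_sq (x : ℤ) : |x| ≤ x ^ 2 := by
  rcases eq_or_ne x 0 with rfl | h
  · simp
  · have := Int.one_le_abs h
    rw [← sq_abs x]
    nlinarith

/-- One of the two shifted coordinates is bounded: symmetric half of the square case. -/
theorem square_case {a b c U V m H M : ℤ} (hm : m ≠ 0) (hD : b ^ 2 - 4 * a * c = m ^ 2)
    (hQ : a * U ^ 2 + b * U * V + c * V ^ 2 = M) (hM : M ≠ 0) (hH : 1 ≤ H) (ha : |a| ≤ H)
    (hMH : |M| ≤ 40 * H ^ 5) : |V| ≤ 320 * H ^ 6 := by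
  have hH5 : (0 : ℤ) ≤ H ^ 5 := by positivity
  have hH56 : H ^ 5 ≤ H ^ 6 := pow_le_pow_right₀ hH (by norm_num)
  by_cases ha0 : a = 0
  · subst ha0
    have h1 : V ∣ M := ⟨b * U + c * V, by rw [← hQ]; ring⟩
    have h2 : |V| ≤ |M| := by
      rw [← abs_dvd_abs] at h1
      exact Int.le_of_dvd (abs_pos.2 hM) h1
    linarith
  · have h1 : (2 * a * U + (b - m) * V) * (2 * a * U + (b + m) * V) = 4 * a * M := by
      rw [← hQ]
      linear_combination V ^ 2 * hD
    have h4 : 4 * a * M ≠ 0 := by positivity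
    have h5 : |4 * a * M| ≤ 160 * H ^ 6 := by
      have h8 : |a| * |M| ≤ H * (40 * H ^ 5) := mul_le_mul ha hMH (abs_nonneg _) (by linarith)
      have h7 : |4 * a * M| = 4 * (|a| * |M|) := by
        rw [abs_mul, abs_mul, mul_assoc]; rfl
      have h9 : 4 * (H * (40 * H ^ 5)) = 160 * H ^ 6 := by ring
      rw [h7, ← h9]
      exact mul_le_mul_of_nonneg_left h8 (by norm_num)
    have h2 : |2 * a * U + (b - m) * V| ≤ |4 * a * M| := by
      have h3 : (2 * a * U + (b - m) * V) ∣ 4 * a * M := ⟨_, h1.symm⟩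
      rw [← abs_dvd_abs] at h3
      exact Int.le_of_dvd (abs_pos.2 h4) h3
    have h3 : |2 * a * U + (b + m) * V| ≤ |4 * a * M| := by
      have h3 : (2 * a * U + (b + m) * V) ∣ 4 * a * M := Dvd.intro_left _ h1
      rw [← abs_dvd_abs] at h3
      exact Int.le_of_dvd (abs_pos.2 h4) h3
    have h6 : |2 * m * V| ≤ 320 * H ^ 6 := by
      have e : 2 * m * V = (2 * a * U + (b + m) * V) - (2 * a * U + (b - m) * V) := by ring
      rw [e]
      have := abs_sub (2 * a * U + (b + m) * V) (2 * a * U + (b - m) * V)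
      linarith
    rw [abs_mul, abs_mul] at h6
    have h7 : |(2 : ℤ)| = 2 := rfl
    rw [h7] at h6
    have h8 : 1 ≤ |m| := Int.one_le_abs hm
    have h9 : |V| ≤ 2 * |m| * |V| := le_mul_of_one_le_left (abs_nonneg V) (by linarith)
    linarith

/-- Integer points on a conic with finitely many integer points and two distinct points at
infinity are polynomially bounded. -/
theorem conic_bound {a b c d e f H : ℤ} (hD : b ^ 2 - 4 * a * c ≠ 0)
    (hfin : {p : ℤ × ℤ | a * p.1 ^ 2 + b * p.1 * p.2 + c * p.2 ^ 2 + d * p.1 + e * p.2 + f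
      = 0}.Finite) (hH : 1 ≤ H) (ha : |a| ≤ H) (hb : |b| ≤ H) (hc : |c| ≤ H) (hd : |d| ≤ H)
    (he : |e| ≤ H) (hf : |f| ≤ H) {x y : ℤ}
    (h : a * x ^ 2 + b * x * y + c * y ^ 2 + d * x + e * y + f = 0) :
    |x| ≤ 323 * H ^ 6 ∧ |y| ≤ 323 * H ^ 6 := by
  have hH2 : (1 : ℤ) ≤ H ^ 2 := one_le_pow₀ hH
  have hH6 : H ^ 2 ≤ H ^ 6 := pow_le_pow_right₀ hH (by norm_num)
  have hH0 : 0 ≤ H := by linarith
  have hkey := conic_key a b c d e f x y
  rw [h, mul_zero] at hkey
  set D := b ^ 2 - 4 * a * c with hDdef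
  set α := 2 * c * d - b * e with hα
  set β := 2 * a * e - b * d with hβ
  set U := D * x - α with hU
  set V := D * y - β with hV
  have hprod : ∀ {p q : ℤ}, |p| ≤ H → |q| ≤ H → |p * q| ≤ H ^ 2 := by
    intro p q hp hq
    rw [abs_mul, sq]
    exact mul_le_mul hp hq (abs_nonneg _) hH0
  have hαb : |α| ≤ 3 * H ^ 2 := by
    have h1 := hprod hc hd
    have h2 := hprod hb he
    have h3 : |2 * c * d - b * e| ≤ |2 * c * d| + |b * e| := abs_sub _ _
    have h4 : |2 * c * d| = 2 * |c * d| := by rw [mul_assoc, abs_mul]; rfl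
    rw [hα]
    linarith
  have hβb : |β| ≤ 3 * H ^ 2 := by
    have h1 := hprod ha he
    have h2 := hprod hb hd
    have h3 : |2 * a * e - b * d| ≤ |2 * a * e| + |b * d| := abs_sub _ _
    have h4 : |2 * a * e| = 2 * |a * e| := by rw [mul_assoc, abs_mul]; rfl
    rw [hβ]
    linarith
  have hDb : |D| ≤ 5 * H ^ 2 := by
    have h1 := hprod hb hb
    have h2 := hprod ha hc
    have h3 : |b ^ 2 - 4 * a * c| ≤ |b ^ 2| + |4 * a * c| := abs_sub _ _
    have h4 : |4 * a * c| = 4 * |a * c| := by rw [mul_assoc, abs_mul]; rfl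
    have h5 : |b ^ 2| = |b * b| := by rw [sq]
    rw [hDdef]
    linarith
  set M := -(D * (D * f + a * e ^ 2 - b * d * e + c * d ^ 2)) with hM
  have hMb : |M| ≤ 40 * H ^ 5 := by
    have h1 : |D * f| ≤ 5 * H ^ 3 := by
      rw [abs_mul]
      have := mul_le_mul hDb hf (abs_nonneg _) (by positivity)
      calc |D| * |f| ≤ 5 * H ^ 2 * H := this
        _ = 5 * H ^ 3 := by ring
    have h2 : ∀ {p q r : ℤ}, |p| ≤ H → |q| ≤ H → |r| ≤ H → |p * q * r| ≤ H ^ 3 := by
      intro p q r hp hq hr
      rw [abs_mul]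
      have := mul_le_mul (hprod hp hq) hr (abs_nonneg _) (by positivity)
      calc |p * q| * |r| ≤ H ^ 2 * H := this
        _ = H ^ 3 := by ring
    have h3 := h2 ha he he
    have h4 := h2 hb hd he
    have h5 := h2 hc hd hd
    have e1 : a * e ^ 2 = a * e * e := by ring
    have e2 : c * d ^ 2 = c * d * d := by ring
    have h6 : |D * f + a * e ^ 2 - b * d * e + c * d ^ 2| ≤ 8 * H ^ 3 := by
      rw [e1, e2]
      have t1 := abs_add_le (D * f + a * e * e - b * d * e) (c * d * d)
      have t2 := abs_sub (D * f + a * e * e) (b * d * e)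
      have t3 := abs_add_le (D * f) (a * e * e)
      linarith
    rw [hM, abs_neg, abs_mul]
    have := mul_le_mul hDb h6 (abs_nonneg _) (by positivity)
    calc |D| * |D * f + a * e ^ 2 - b * d * e + c * d ^ 2| ≤ 5 * H ^ 2 * (8 * H ^ 3) := this
      _ = 40 * H ^ 5 := by ring
  have hQ : a * U ^ 2 + b * U * V + c * V ^ 2 = M := by
    rw [hM]
    linear_combination -hkey
  -- it suffices to bound U and V
  suffices hUV : |U| ≤ 320 * H ^ 6 ∧ |V| ≤ 320 * H ^ 6 by
    have h1 : 1 ≤ |D| := Int.one_le_abs hD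
    constructor
    · have e1 : D * x = U + α := by rw [hU]; ring
      have h2 : |D| * |x| ≤ 323 * H ^ 6 := by
        rw [← abs_mul, e1]
        have := abs_add_le U α
        linarith [hUV.1]
      exact (le_mul_of_one_le_left (abs_nonneg x) h1).trans h2
    · have e1 : D * y = V + β := by rw [hV]; ring
      have h2 : |D| * |y| ≤ 323 * H ^ 6 := by
        rw [← abs_mul, e1]
        have := abs_add_le V β
        linarith [hUV.2]
      exact (le_mul_of_one_le_left (abs_nonneg y) h1).trans h2
  have hid1 : 4 * a * M = (2 * a * U + b * V) ^ 2 - D * V ^ 2 := by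
    rw [← hQ, hDdef]; ring
  have hid2 : 4 * c * M = (2 * c * V + b * U) ^ 2 - D * U ^ 2 := by
    rw [← hQ, hDdef]; ring
  have h4a : ∀ {p : ℤ}, |p| ≤ H → |4 * p * M| ≤ 160 * H ^ 6 := by
    intro p hp
    have h8 : |p| * |M| ≤ H * (40 * H ^ 5) := mul_le_mul hp hMb (abs_nonneg _) hH0
    have h7 : |4 * p * M| = 4 * (|p| * |M|) := by
      rw [abs_mul, abs_mul, mul_assoc]; rfl
    have h9 : 4 * (H * (40 * H ^ 5)) = 160 * H ^ 6 := by ring
    rw [h7, ← h9]
    exact mul_le_mul_of_nonneg_left h8 (by norm_num)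
  rcases lt_trichotomy D 0 with hneg | hz | hpos
  · -- ellipse
    have hD1 : 1 ≤ -D := by omega
    constructor
    · have h1 := abs_le_sq U
      have h2 := le_abs_self (4 * c * M)
      have h3 := h4a hc
      have h4 := sq_nonneg (2 * c * V + b * U)
      have h5 : U ^ 2 ≤ -D * U ^ 2 := le_mul_of_one_le_left (sq_nonneg U) hD1
      have h6 : -D * U ^ 2 = -(D * U ^ 2) := by ring
      linarith
    · have h1 := abs_le_sq V
      have h2 := le_abs_self (4 * a * M)
      have h3 := h4a ha
      have h4 := sq_nonneg (2 * a * U + b * V)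
      have h5 : V ^ 2 ≤ -D * V ^ 2 := le_mul_of_one_le_left (sq_nonneg V) hD1
      have h6 : -D * V ^ 2 = -(D * V ^ 2) := by ring
      linarith
  · exact absurd hz hD
  · by_cases hsq : IsSquare D
    · obtain ⟨m, hm⟩ := hsq
      have hm0 : m ≠ 0 := by
        rintro rfl
        rw [hm] at hpos
        simp at hpos
      have hm2 : b ^ 2 - 4 * a * c = m ^ 2 := by rw [← hDdef, hm]; ring
      by_cases hM0 : M = 0
      · -- degenerate: the point lies on a line contained in the conic
        exfalso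
        -- any integer point with Q(U', V') = 0 is on the conic
        have hon : ∀ x' y' : ℤ, a * (D * x' - α) ^ 2 + b * (D * x' - α) * (D * y' - β) +
            c * (D * y' - β) ^ 2 = 0 →
            a * x' ^ 2 + b * x' * y' + c * y' ^ 2 + d * x' + e * y' + f = 0 := by
          intro x' y' h'
          have h1 := conic_key a b c d e f x' y'
          rw [← hDdef, ← hα, ← hβ, h'] at h1
          have h2 : D * (D * f + a * e ^ 2 - b * d * e + c * d ^ 2) = 0 := by
            rw [hM] at hM0
            linarith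
          rw [h2, add_zero] at h1
          rcases mul_eq_zero.1 h1 with h4 | h4
          · exact absurd h4 (pow_ne_zero 2 hD)
          · exact h4
        -- a line A U + B V = 0 with integer direction
        have hline : ∀ A B : ℤ, (A ≠ 0 ∨ B ≠ 0) → A * U + B * V = 0 →
            (∀ U' V' : ℤ, A * U' + B * V' = 0 → a * U' ^ 2 + b * U' * V' + c * V' ^ 2 = 0) →
            False := by
          intro A B hAB hAUV himp
          have h1 : A * x + B * y + (A * (-x) + B * (-y)) = 0 := by ring
          apply (line_infinite hAB h1)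
          apply hfin.subset
          rintro ⟨x', y'⟩ hp
          change A * x' + B * y' + (A * (-x) + B * (-y)) = 0 at hp
          apply hon
          apply himp
          have e1 : A * (D * x' - α) + B * (D * y' - β) = D * (A * x' + B * y' +
            (A * (-x) + B * (-y))) + (A * U + B * V) := by rw [hU, hV]; ring
          rw [e1, hp, hAUV]
          ring
        rw [hM0] at hQ
        by_cases ha0 : a = 0
        · have hb0 : b ≠ 0 := by
            rintro rfl
            rw [ha0] at hm2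
            have : m ^ 2 = 0 := by rw [← hm2]; ring
            exact hm0 (pow_eq_zero_iff two_ne_zero |>.1 this)
          have h1 : V * (b * U + c * V) = 0 := by
            rw [← hQ, ha0]; ring
          rcases mul_eq_zero.1 h1 with h2 | h2
          · refine hline 0 1 (Or.inr one_ne_zero) (by linarith) fun U' V' h' => ?_
            have : V' = 0 := by linarith
            rw [this, ha0]; ring
          · refine hline b c (Or.inl hb0) h2 fun U' V' h' => ?_
            rw [ha0]
            linear_combination V' * h'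
        · have h1 : (2 * a * U + (b - m) * V) * (2 * a * U + (b + m) * V) = 0 := by
            have : (2 * a * U + (b - m) * V) * (2 * a * U + (b + m) * V) =
              4 * a * (a * U ^ 2 + b * U * V + c * V ^ 2) := by
              linear_combination V ^ 2 * hm2
            rw [this, hQ, mul_zero]
          have h2a : 2 * a ≠ 0 := by positivity
          have hfac : ∀ U' V' : ℤ, (2 * a * U' + (b - m) * V') * (2 * a * U' + (b + m) * V') = 0 →
              a * U' ^ 2 + b * U' * V' + c * V' ^ 2 = 0 := by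
            intro U' V' h'
            have : 4 * a * (a * U' ^ 2 + b * U' * V' + c * V' ^ 2) = 0 := by
              rw [← h']
              linear_combination -V' ^ 2 * hm2
            rcases mul_eq_zero.1 this with h3 | h3
            · exfalso
              apply ha0
              linarith
            · exact h3
          rcases mul_eq_zero.1 h1 with h2 | h2
          · refine hline (2 * a) (b - m) (Or.inl h2a) h2 fun U' V' h' => hfac U' V' ?_
            rw [h', zero_mul]
          · refine hline (2 * a) (b + m) (Or.inl h2a) h2 fun U' V' h' => hfac U' V' ?_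
            rw [h', mul_zero]
      · constructor
        · exact square_case (a := c) (b := b) (c := a) (U := V) (V := U) hm0
            (by rw [← hm2]; ring) (by rw [← hQ]; ring) hM0 hH hc hMb
        · exact square_case hm0 hm2 hQ hM0 hH ha hMb
    · by_cases hM0 : M = 0
      · have hU0 : U = 0 := by
          by_contra hne
          apply hsq
          rw [hM0, mul_zero] at hid2
          exact isSquare_of_mul hne (p := 2 * c * V + b * U) (by linarith)
        have hV0 : V = 0 := by
          by_contra hne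
          apply hsq
          rw [hM0, mul_zero] at hid1
          exact isSquare_of_mul hne (p := 2 * a * U + b * V) (by linarith)
        rw [hU0, hV0]
        simp only [abs_zero]
        constructor <;> positivity
      · exfalso
        apply hyperbola_infinite hpos hsq (fun h0 => hM0 (by rw [hM, h0]; ring)) h
        exact hfin

end Pool.Agent.H15D
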