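import Mathlib

/-! Factors of an integer polynomial in two variables. -/

namespace Pool.Agent.H15D

open MvPolynomial

noncomputable section

/-- Some irreducible factor vanishes at a given zero. -/
theorem exists_factor {F : MvPolynomial (Fin 2) ℤ} (hF : F ≠ 0) {v : Fin 2 → ℤ}
    (h : eval v F = 0) : ∃ G, G ∣ F ∧ Irreducible G ∧ eval v G = 0 := by
  obtain ⟨s, hs, hsF⟩ := WfDvdMonoid.exists_factors F hF
  obtain ⟨u, hu⟩ := hsF
  have h1 : eval v s.prod = 0 := by
    rw [← hu, map_mul] at h
    rcases mul_eq_zero.1 h with h2 | h2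
    · exact h2
    · exact absurd h2 ((u.isUnit.map (eval v)).ne_zero)
  rw [map_multiset_prod, Multiset.prod_eq_zero_iff, Multiset.mem_map] at h1
  obtain ⟨G, hG, hG0⟩ := h1
  exact ⟨G, ⟨(s.erase G).prod * u, by rw [← hu, ← Multiset.prod_erase hG]; ring⟩, hs G hG, hG0⟩

attribute [local instance] MvPolynomial.algebraMvPolynomial in
/-- An irreducible polynomial over `ℤ` with an integer zero is irreducible over `ℚ`. -/
theorem irreducible_map {G : MvPolynomial (Fin 2) ℤ} (hG : Irreducible G) {v : Fin 2 → ℤ}
    (h : eval v G = 0) : Irreducible (map (Int.castRingHom ℚ) G) := by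
  have hG0 : G ≠ 0 := hG.ne_zero
  have hprime : (Ideal.span {G}).IsPrime := (Ideal.span_singleton_prime hG0).2 hG.prime
  have hdisj : Disjoint (((nonZeroDivisors ℤ).map (C (σ := Fin 2) : ℤ →+* _) :
      Submonoid (MvPolynomial (Fin 2) ℤ)) : Set (MvPolynomial (Fin 2) ℤ)) ↑(Ideal.span {G}) := by
    rw [Set.disjoint_left]
    rintro _ ⟨n, hn, rfl⟩ hmem
    have h1 : G ∣ C n := Ideal.mem_span_singleton.1 hmem
    obtain ⟨q, hq⟩ := h1
    have h2 := congrArg (eval v) hq
    rw [map_mul, h, zero_mul, eval_C] at h2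
    exact nonZeroDivisors.ne_zero hn h2
  have h3 := IsLocalization.isPrime_of_isPrime_disjoint
    ((nonZeroDivisors ℤ).map (C (σ := Fin 2) : ℤ →+* _)) (MvPolynomial (Fin 2) ℚ)
    (Ideal.span {G}) hprime hdisj
  rw [Ideal.map_span, Set.image_singleton] at h3
  have h4 : (algebraMap (MvPolynomial (Fin 2) ℤ) (MvPolynomial (Fin 2) ℚ)) G =
      map (Int.castRingHom ℚ) G := rfl
  rw [h4] at h3
  have h5 : map (Int.castRingHom ℚ) G ≠ 0 := by
    rw [Ne, ← map_zero (map (Int.castRingHom ℚ) : MvPolynomial (Fin 2) ℤ →+* _)]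
    exact fun h6 => hG0 (map_injective _ (RingHom.injective_int _) h6)
  exact ((Ideal.span_singleton_prime h5).1 h3).irreducible

/-- The top homogeneous component is multiplicative. -/
theorem top_mul {R : Type*} [CommRing R] (G Q : MvPolynomial (Fin 2) R) (e q : ℕ)
    (hG : G.totalDegree ≤ e) (hQ : Q.totalDegree ≤ q) :
    homogeneousComponent (e + q) (G * Q) = homogeneousComponent e G * homogeneousComponent q Q := by
  have key : ∀ (a b : ℕ) (A B : MvPolynomial (Fin 2) R), A.IsHomogeneous a → B.IsHomogeneous b →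
      a ≤ e → b ≤ q → homogeneousComponent (e + q) (A * B) =
        if a = e ∧ b = q then A * B else 0 := by
    intro a b A B hA hB hae hbq
    rw [homogeneousComponent_of_mem (hA.mul hB)]
    by_cases h : a = e ∧ b = q
    · rw [if_pos h, if_pos (by omega)]
    · rw [if_neg h, if_neg]
      intro h'
      apply h
      omega
  have hGs : G = ∑ i ∈ Finset.range (e + 1), homogeneousComponent i G := by
    conv_lhs => rw [← sum_homogeneousComponent G]
    apply Finset.sum_subset (Finset.range_mono (by omega))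
    intro i _ hi
    apply homogeneousComponent_eq_zero
    simp only [Finset.mem_range] at hi
    omega
  have hQs : Q = ∑ i ∈ Finset.range (q + 1), homogeneousComponent i Q := by
    conv_lhs => rw [← sum_homogeneousComponent Q]
    apply Finset.sum_subset (Finset.range_mono (by omega))
    intro i _ hi
    apply homogeneousComponent_eq_zero
    simp only [Finset.mem_range] at hi
    omega
  conv_lhs => rw [hGs, hQs, Finset.sum_mul_sum, map_sum]
  simp_rw [map_sum]
  have h1 : ∀ i ∈ Finset.range (e + 1), ∀ j ∈ Finset.range (q + 1),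
      homogeneousComponent (e + q) (homogeneousComponent i G * homogeneousComponent j Q) =
        if i = e ∧ j = q then homogeneousComponent i G * homogeneousComponent j Q else 0 := by
    intro i hi j hj
    simp only [Finset.mem_range] at hi hj
    exact key i j _ _ (homogeneousComponent_isHomogeneous i G)
      (homogeneousComponent_isHomogeneous j Q) (by omega) (by omega)
  rw [Finset.sum_congr rfl fun i hi => Finset.sum_congr rfl (h1 i hi)]
  rw [Finset.sum_eq_single e, Finset.sum_eq_single q]
  · simp
  · intro j _ hj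
    simp [hj]
  · intro h
    simp at h
  · intro i _ hi
    apply Finset.sum_eq_zero
    intro j _
    simp [hi]
  · intro h
    simp at h

/-- A binary linear form. -/
def lf {K : Type*} [Field K] (u v : K) : MvPolynomial (Fin 2) K := C u * X 0 + C v * X 1

theorem lf_isHomogeneous {K : Type*} [Field K] (u v : K) : (lf u v).IsHomogeneous 1 :=
  (isHomogeneous_C_mul_X _ _).add (isHomogeneous_C_mul_X _ _)

theorem lf_coeffs {K : Type*} [Field K] (α β : K) :
    coeff (Finsupp.single 0 1) (lf α β) = α ∧ coeff (Finsupp.single 1 1) (lf α β) = β := by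
  constructor
  · rw [lf, coeff_add, coeff_C_mul, coeff_C_mul, coeff_X, coeff_X]
    simp [Finsupp.single_left_inj]
  · rw [lf, coeff_add, coeff_C_mul, coeff_C_mul, coeff_X, coeff_X]
    simp [Finsupp.single_left_inj]

theorem lf_prime {K : Type*} [Field K] {α β : K} (h : α ≠ 0 ∨ β ≠ 0) : Prime (lf α β) := by
  have h0 : lf α β ≠ 0 := by
    intro h0
    have := lf_coeffs α β
    rw [h0, coeff_zero, coeff_zero] at this
    rcases h with h | h
    · exact h this.1.symm
    · exact h this.2.symm
  apply Irreducible.prime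
  apply irreducible_of_totalDegree_eq_one
  · exact (lf_isHomogeneous α β).totalDegree h0
  · intro x hx
    rw [isUnit_iff_ne_zero]
    rintro rfl
    rcases h with h | h
    · have := hx (Finsupp.single 0 1)
      rw [(lf_coeffs α β).1, zero_dvd_iff] at this
      exact h this
    · have := hx (Finsupp.single 1 1)
      rw [(lf_coeffs α β).2, zero_dvd_iff] at this
      exact h this

/-- A homogeneous factor of a product of pairwise non-proportional linear forms is such a product
itself. -/
theorem split_factor {K : Type*} [Field K] {d e : ℕ} (he : 1 ≤ e) {u v : Fin d → K}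
    (huv : ∀ i, u i ≠ 0 ∨ v i ≠ 0) (hpair : ∀ i j, i ≠ j → u i * v j ≠ u j * v i)
    {A B : MvPolynomial (Fin 2) K} (hA : A.IsHomogeneous e) (hAB : A * B = ∏ i, lf (u i) (v i)) :
    ∃ u' v' : Fin e → K, (∀ i j, i ≠ j → u' i * v' j ≠ u' j * v' i) ∧
      A = ∏ i, lf (u' i) (v' i) := by
  have hprime : ∀ i ∈ (Finset.univ : Finset (Fin d)), Prime (lf (u i) (v i)) :=
    fun i _ => lf_prime (huv i)
  obtain ⟨t, w, b, c, htw, hdis, hbc, hx, hy⟩ := mul_eq_mul_prime_prod (a := 1) hprime
    (by rw [hAB, one_mul] : A * B = 1 * ∏ i ∈ Finset.univ, lf (u i) (v i))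
  -- b is a nonzero constant
  have hb : IsUnit b := IsUnit.of_mul_eq_one c hbc.symm
  rw [isUnit_iff_eq_C_of_isReduced] at hb
  obtain ⟨β, hβ, hbβ⟩ := hb
  have hβ0 : β ≠ 0 := hβ.ne_zero
  have hprod0 : ∏ i ∈ t, lf (u i) (v i) ≠ 0 :=
    Finset.prod_ne_zero_iff.2 fun i _ => (lf_prime (huv i)).ne_zero
  have hA0 : A ≠ 0 := by
    rw [hx, hbβ]
    exact mul_ne_zero (by simpa using hβ0) hprod0
  have hcard : t.card = e := by
    have h1 : A.IsHomogeneous (0 + ∑ _i ∈ t, 1) := by
      rw [hx, hbβ]
      exact (isHomogeneous_C _ _).mul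
        (IsHomogeneous.prod t (fun i => lf (u i) (v i)) (fun _ => 1)
          fun i _ => lf_isHomogeneous _ _)
    have h2 := h1.inj_right hA hA0
    simpa using h2
  set φ := t.orderEmbOfFin hcard with hφ
  have hprodφ : ∏ i ∈ t, lf (u i) (v i) = ∏ k : Fin e, lf (u (φ k)) (v (φ k)) := by
    conv_lhs => rw [← Finset.map_orderEmbOfFin_univ t hcard]
    rw [Finset.prod_map]
    rfl
  let k₀ : Fin e := ⟨0, he⟩
  refine ⟨fun k => (if k = k₀ then β else 1) * u (φ k), fun k => (if k = k₀ then β else 1) * v (φ k),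
    ?_, ?_⟩
  · intro i j hij
    have h1 := hpair (φ i) (φ j) (fun h => hij (φ.injective h))
    have h2 : (if i = k₀ then β else 1) ≠ 0 := by split_ifs <;> simp [hβ0]
    have h3 : (if j = k₀ then β else 1) ≠ 0 := by split_ifs <;> simp [hβ0]
    intro h4
    apply h1
    apply mul_left_cancel₀ (mul_ne_zero h2 h3)
    linear_combination h4
  · rw [hx, hbβ, hprodφ]
    have h5 : ∀ k : Fin e, lf ((if k = k₀ then β else 1) * u (φ k))
        ((if k = k₀ then β else 1) * v (φ k)) =
        (if k = k₀ then C β else 1) * lf (u (φ k)) (v (φ k)) := by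
      intro k
      unfold lf
      split_ifs
      · simp only [C_mul]; ring
      · simp
    rw [Finset.prod_congr rfl fun k _ => h5 k, Finset.prod_mul_distrib, Finset.prod_ite_eq']
    simp

end

end Pool.Agent.H15D
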