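import Mathlib
import Pool.Agent.H20.Gen3

/-! Heights of factors. -/

namespace Pool.Agent.H15D

open Polynomial

noncomputable section

/-- Interpolation with nodes in `{0, ..., 2N}`. -/
theorem interp_bound (N : ℕ) : ∃ c : ℝ, 0 ≤ c ∧ ∀ g : ℤ[X], g.natDegree ≤ N →
    ∀ S : Finset ℕ, S ⊆ Finset.range (2 * N + 1) → S.card = N + 1 → ∀ B : ℝ,
      (∀ b ∈ S, |((g.eval (b : ℤ) : ℤ) : ℝ)| ≤ B) → ∀ j, |((g.coeff j : ℤ) : ℝ)| ≤ c * B := by
  refine ⟨∑ S ∈ (Finset.range (2 * N + 1)).powerset, ∑ b ∈ S, ∑ j ∈ Finset.range (N + 1),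
    |(Lagrange.basis S (fun b : ℕ => (b : ℝ)) b).coeff j|, ?_, ?_⟩
  · positivity
  intro g hg S hS hcard B hB j
  have hB0 : 0 ≤ B := by
    obtain ⟨b, hb⟩ : S.Nonempty := by
      rw [← Finset.card_pos]
      omega
    exact (abs_nonneg _).trans (hB b hb)
  by_cases hj : N < j
  · rw [coeff_eq_zero_of_natDegree_lt (lt_of_le_of_lt hg hj)]
    simp only [Int.cast_zero, abs_zero]
    apply mul_nonneg _ hB0
    positivity
  push Not at hj
  have hdeg : (g.map (Int.castRingHom ℝ)).degree < S.card := by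
    rw [hcard]
    apply lt_of_le_of_lt degree_le_natDegree
    have : (g.map (Int.castRingHom ℝ)).natDegree ≤ N := natDegree_map_le.trans hg
    exact_mod_cast Nat.lt_succ_of_le this
  have hint := Lagrange.eq_interpolate (f := g.map (Int.castRingHom ℝ)) (s := S)
    (v := fun b : ℕ => (b : ℝ)) (fun a _ b _ h => by simpa using h) hdeg
  have hcoef : ((g.coeff j : ℤ) : ℝ) = ∑ b ∈ S, ((g.eval (b : ℤ) : ℤ) : ℝ) *
      (Lagrange.basis S (fun b : ℕ => (b : ℝ)) b).coeff j := by
    have h1 : ((g.coeff j : ℤ) : ℝ) = (g.map (Int.castRingHom ℝ)).coeff j := by simp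
    rw [h1, hint, Lagrange.interpolate_apply, finsetSum_coeff]
    apply Finset.sum_congr rfl
    intro b _
    rw [coeff_C_mul]
    congr 1
    have h2 : ((b : ℕ) : ℝ) = (Int.castRingHom ℝ) (b : ℤ) := by simp
    rw [h2, eval_map, eval₂_at_apply]
    simp
  rw [hcoef]
  calc |∑ b ∈ S, ((g.eval (b : ℤ) : ℤ) : ℝ) * (Lagrange.basis S (fun b : ℕ => (b : ℝ)) b).coeff j|
      ≤ ∑ b ∈ S, |((g.eval (b : ℤ) : ℤ) : ℝ) *
        (Lagrange.basis S (fun b : ℕ => (b : ℝ)) b).coeff j| := Finset.abs_sum_le_sum_abs _ _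
    _ ≤ ∑ b ∈ S, B * ∑ i ∈ Finset.range (N + 1),
        |(Lagrange.basis S (fun b : ℕ => (b : ℝ)) b).coeff i| := by
        apply Finset.sum_le_sum
        intro b hb
        rw [abs_mul]
        apply mul_le_mul (hB b hb) _ (abs_nonneg _) hB0
        exact Finset.single_le_sum
          (f := fun i => |(Lagrange.basis S (fun b : ℕ => (b : ℝ)) b).coeff i|)
          (fun i _ => abs_nonneg _) (Finset.mem_range.2 (by omega))
    _ = (∑ b ∈ S, ∑ i ∈ Finset.range (N + 1),
        |(Lagrange.basis S (fun b : ℕ => (b : ℝ)) b).coeff i|) * B := by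
        rw [← Finset.mul_sum, mul_comm]
    _ ≤ _ := by
        apply mul_le_mul_of_nonneg_right _ hB0
        exact Finset.single_le_sum (f := fun S : Finset ℕ => ∑ b ∈ S, ∑ i ∈ Finset.range (N + 1),
          |(Lagrange.basis S (fun b : ℕ => (b : ℝ)) b).coeff i|)
          (fun S _ => by positivity) (Finset.mem_powerset.2 hS)

/-- Height of a divisor of an integer polynomial. -/
theorem height_dvd (N : ℕ) : ∃ c : ℝ, 0 ≤ c ∧ ∀ f g : ℤ[X], f ≠ 0 → f.natDegree ≤ N → g ∣ f →
    ∀ j, |((g.coeff j : ℤ) : ℝ)| ≤ c * ∑ i ∈ Finset.range (N + 1), |((f.coeff i : ℤ) : ℝ)| := by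
  obtain ⟨c, hc, hint⟩ := interp_bound N
  refine ⟨c * (2 * N + 1) ^ N, by positivity, ?_⟩
  intro f g hf hfN hgf j
  -- nodes
  obtain ⟨S, hS, hcard, hSf⟩ : ∃ S : Finset ℕ, S ⊆ Finset.range (2 * N + 1) ∧ S.card = N + 1 ∧
      ∀ b ∈ S, f.eval (b : ℤ) ≠ 0 := by
    set T := (Finset.range (2 * N + 1)).filter (fun b : ℕ => f.eval (b : ℤ) ≠ 0) with hT
    have hbad : ((Finset.range (2 * N + 1)).filter (fun b : ℕ => f.eval (b : ℤ) = 0)).card ≤ N := by
      have h1 : (((Finset.range (2 * N + 1)).filter (fun b : ℕ => f.eval (b : ℤ) = 0)).image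
          (fun b : ℕ => (b : ℤ))) ⊆ f.roots.toFinset := by
        intro z hz
        rw [Finset.mem_image] at hz
        obtain ⟨b, hb, rfl⟩ := hz
        rw [Multiset.mem_toFinset, mem_roots hf]
        exact (Finset.mem_filter.1 hb).2
      have h2 := Finset.card_le_card h1
      rw [Finset.card_image_of_injective _ Nat.cast_injective] at h2
      calc _ ≤ f.roots.toFinset.card := h2
        _ ≤ f.roots.card := Multiset.toFinset_card_le _
        _ ≤ f.natDegree := card_roots' f
        _ ≤ N := hfN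
    have htot := Finset.card_filter_add_card_filter_not (s := Finset.range (2 * N + 1))
      (fun b : ℕ => f.eval (b : ℤ) = 0)
    rw [Finset.card_range] at htot
    have hTc : N + 1 ≤ T.card := by
      have : T.card = ((Finset.range (2 * N + 1)).filter
        (fun b : ℕ => ¬ f.eval (b : ℤ) = 0)).card := rfl
      omega
    obtain ⟨S, hST, hSc⟩ := Finset.exists_subset_card_eq hTc
    exact ⟨S, hST.trans (Finset.filter_subset _ _), hSc,
      fun b hb => (Finset.mem_filter.1 (hST hb)).2⟩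
  have hgN : g.natDegree ≤ N := (natDegree_le_of_dvd hgf hf).trans hfN
  have hval : ∀ b ∈ S, |((g.eval (b : ℤ) : ℤ) : ℝ)| ≤
      (2 * N + 1) ^ N * ∑ i ∈ Finset.range (N + 1), |((f.coeff i : ℤ) : ℝ)| := by
    intro b hb
    have h1 : g.eval (b : ℤ) ∣ f.eval (b : ℤ) := eval_dvd hgf
    have h2 : |g.eval (b : ℤ)| ≤ |f.eval (b : ℤ)| := by
      rw [← abs_dvd_abs] at h1
      exact Int.le_of_dvd (abs_pos.2 (hSf b hb)) h1
    have h3 : |((g.eval (b : ℤ) : ℤ) : ℝ)| ≤ |((f.eval (b : ℤ) : ℤ) : ℝ)| := by exact_mod_cast h2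
    refine h3.trans ?_
    have h4 : f.eval (b : ℤ) = ∑ i ∈ Finset.range (N + 1), f.coeff i * (b : ℤ) ^ i :=
      eval_eq_sum_range' (Nat.lt_succ_of_le hfN) _
    rw [h4]
    push_cast
    calc |∑ i ∈ Finset.range (N + 1), ((f.coeff i : ℤ) : ℝ) * (b : ℝ) ^ i|
        ≤ ∑ i ∈ Finset.range (N + 1), |((f.coeff i : ℤ) : ℝ) * (b : ℝ) ^ i| :=
          Finset.abs_sum_le_sum_abs _ _
      _ ≤ ∑ i ∈ Finset.range (N + 1), (2 * N + 1) ^ N * |((f.coeff i : ℤ) : ℝ)| := by
          apply Finset.sum_le_sum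
          intro i hi
          rw [abs_mul, mul_comm]
          apply mul_le_mul_of_nonneg_right _ (abs_nonneg _)
          rw [abs_of_nonneg (by positivity)]
          have hb' : (b : ℝ) ≤ 2 * N + 1 := by
            have := Finset.mem_range.1 (hS hb)
            exact_mod_cast this.le
          have hi' : i ≤ N := by
            have := Finset.mem_range.1 hi
            omega
          calc (b : ℝ) ^ i ≤ (2 * N + 1) ^ i := pow_le_pow_left₀ (by positivity) hb' _
            _ ≤ (2 * N + 1) ^ N := pow_le_pow_right₀ (by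
                have : (0 : ℝ) ≤ N := by positivity
                linarith) hi'
      _ = _ := by rw [Finset.mul_sum]
  have := hint g hgN S hS hcard _ hval j
  rw [mul_assoc]
  exact this

/-- Kronecker substitution. -/
def kron (D : ℕ) : MvPolynomial (Fin 2) ℤ →+* ℤ[X] :=
  (MvPolynomial.aeval ![X, X ^ (D + 1)] : MvPolynomial (Fin 2) ℤ →ₐ[ℤ] ℤ[X]).toRingHom

theorem kron_monomial (D : ℕ) (m : Fin 2 →₀ ℕ) (c : ℤ) :
    kron D (MvPolynomial.monomial m c) = monomial (m 0 + (D + 1) * m 1) c := by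
  change MvPolynomial.aeval ![X, X ^ (D + 1)] (MvPolynomial.monomial m c) = _
  rw [MvPolynomial.aeval_monomial, Finsupp.prod_fintype _ _ (by simp), Fin.prod_univ_two]
  simp only [Matrix.cons_val_zero, Matrix.cons_val_one, algebraMap_eq, ← pow_mul, ← pow_add]
  rw [C_mul_X_pow_eq_monomial]

theorem kron_eq (D : ℕ) (F : MvPolynomial (Fin 2) ℤ) :
    kron D F = ∑ m ∈ F.support, monomial (m 0 + (D + 1) * m 1) (F.coeff m) := by
  conv_lhs => rw [F.as_sum, map_sum]
  exact Finset.sum_congr rfl fun m _ => kron_monomial D m _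

theorem deg_le {F : MvPolynomial (Fin 2) ℤ} {D : ℕ} (hF : F.totalDegree ≤ D) {m : Fin 2 →₀ ℕ}
    (hm : m ∈ F.support) : m 0 + m 1 ≤ D := by
  have := MvPolynomial.le_totalDegree hm
  rw [Finsupp.sum_fintype _ _ (by simp), Fin.sum_univ_two] at this
  omega

theorem kron_inj {D a b a' b' : ℕ} (ha : a ≤ D) (ha' : a' ≤ D)
    (h : a + (D + 1) * b = a' + (D + 1) * b') : a = a' ∧ b = b' := by
  have h1 : (a + (D + 1) * b) % (D + 1) = a := by
    rw [Nat.add_mul_mod_self_left]
    exact Nat.mod_eq_of_lt (by omega)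
  have h2 : (a' + (D + 1) * b') % (D + 1) = a' := by
    rw [Nat.add_mul_mod_self_left]
    exact Nat.mod_eq_of_lt (by omega)
  have h3 : a = a' := by rw [← h1, ← h2, h]
  subst h3
  refine ⟨rfl, ?_⟩
  have : (D + 1) * b = (D + 1) * b' := by omega
  exact Nat.eq_of_mul_eq_mul_left (by omega) this

theorem kron_coeff {D : ℕ} {F : MvPolynomial (Fin 2) ℤ} (hF : F.totalDegree ≤ D)
    {m : Fin 2 →₀ ℕ} (hm : m 0 ≤ D) :
    (kron D F).coeff (m 0 + (D + 1) * m 1) = F.coeff m := by
  rw [kron_eq, finsetSum_coeff]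
  simp_rw [coeff_monomial]
  by_cases h : m ∈ F.support
  · rw [Finset.sum_eq_single m]
    · simp
    · intro m' hm' hne
      rw [if_neg]
      intro heq
      apply hne
      have h1 := kron_inj (by have := deg_le hF hm'; omega) hm heq
      ext i
      fin_cases i
      · exact h1.1
      · exact h1.2
    · intro h'
      exact absurd h h'
  · rw [MvPolynomial.notMem_support_iff.1 h]
    apply Finset.sum_eq_zero
    intro m' hm'
    rw [if_neg]
    intro heq
    have h1 := kron_inj (by have := deg_le hF hm'; omega) hm heq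
    apply h
    have : m' = m := by
      ext i
      fin_cases i
      · exact h1.1
      · exact h1.2
    rwa [← this]

theorem kron_natDegree {D : ℕ} {F : MvPolynomial (Fin 2) ℤ} (hF : F.totalDegree ≤ D) :
    (kron D F).natDegree ≤ D * (D + 2) := by
  rw [kron_eq]
  apply natDegree_sum_le_of_forall_le
  intro m hm
  refine (natDegree_monomial_le _).trans ?_
  have h1 := deg_le hF hm
  have h2 : m 0 ≤ D := by omega
  have h3 : (D + 1) * m 1 ≤ (D + 1) * D := Nat.mul_le_mul_left _ (by omega)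
  nlinarith

open Pool.Agent.H20 in
theorem kron_height {D : ℕ} {F : MvPolynomial (Fin 2) ℤ} :
    ∑ i ∈ Finset.range (D * (D + 2) + 1), |(((kron D F).coeff i : ℤ) : ℝ)| ≤ HF F := by
  unfold HF
  have h1 : ∀ i, |(((kron D F).coeff i : ℤ) : ℝ)| ≤
      ∑ m ∈ F.support, if m 0 + (D + 1) * m 1 = i then |((F.coeff m : ℤ) : ℝ)| else 0 := by
    intro i
    rw [kron_eq, finsetSum_coeff]
    push_cast
    refine (Finset.abs_sum_le_sum_abs _ _).trans (Finset.sum_le_sum fun m _ => ?_)
    rw [coeff_monomial]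
    split_ifs <;> simp
  calc _ ≤ ∑ i ∈ Finset.range (D * (D + 2) + 1), ∑ m ∈ F.support,
        (if m 0 + (D + 1) * m 1 = i then |((F.coeff m : ℤ) : ℝ)| else 0) :=
        Finset.sum_le_sum fun i _ => h1 i
    _ = ∑ m ∈ F.support, ∑ i ∈ Finset.range (D * (D + 2) + 1),
        (if m 0 + (D + 1) * m 1 = i then |((F.coeff m : ℤ) : ℝ)| else 0) := Finset.sum_comm
    _ ≤ ∑ m ∈ F.support, |((F.coeff m : ℤ) : ℝ)| := by
        apply Finset.sum_le_sum
        intro m _
        rw [Finset.sum_ite_eq]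
        split_ifs
        · exact le_rfl
        · exact abs_nonneg _

open Pool.Agent.H20 in
/-- The height of a factor is bounded in terms of the height of the polynomial. -/
theorem height_factor (D : ℕ) : ∃ c : ℝ, 1 ≤ c ∧ ∀ F G : MvPolynomial (Fin 2) ℤ, F ≠ 0 →
    F.totalDegree ≤ D → G ∣ F → HF G ≤ c * HF F := by
  obtain ⟨c, hc, h⟩ := height_dvd (D * (D + 2))
  refine ⟨((D + 1) ^ 2 : ℕ) * c + 1, by
    have : (0 : ℝ) ≤ ((D + 1) ^ 2 : ℕ) * c := by positivity
    linarith, ?_⟩
  intro F G hF0 hF hGF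
  have hHF : 0 ≤ HF F := Finset.sum_nonneg fun _ _ => abs_nonneg _
  have hG : G.totalDegree ≤ D := by
    obtain ⟨Q, rfl⟩ := hGF
    rw [MvPolynomial.totalDegree_mul_of_isDomain (left_ne_zero_of_mul hF0)
      (right_ne_zero_of_mul hF0)] at hF
    omega
  have hk0 : kron D F ≠ 0 := by
    obtain ⟨m, hm⟩ := MvPolynomial.support_nonempty.2 hF0
    intro h0
    have h1 := kron_coeff hF (m := m) (by have := deg_le hF hm; omega)
    rw [h0, coeff_zero] at h1
    exact (MvPolynomial.mem_support_iff.1 hm) h1.symm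
  have hcoef : ∀ m ∈ G.support, |((G.coeff m : ℤ) : ℝ)| ≤ c * HF F := by
    intro m hm
    have h1 := kron_coeff hG (m := m) (by have := deg_le hG hm; omega)
    rw [← h1]
    refine (h _ _ hk0 (kron_natDegree hF) (map_dvd (kron D) hGF) _).trans ?_
    exact mul_le_mul_of_nonneg_left kron_height hc
  have hsupp : G.support.card ≤ (D + 1) ^ 2 := by
    have h1 : G.support.image (fun m : Fin 2 →₀ ℕ => (m 0, m 1)) ⊆
        Finset.range (D + 1) ×ˢ Finset.range (D + 1) := by
      intro z hz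
      rw [Finset.mem_image] at hz
      obtain ⟨m, hm, rfl⟩ := hz
      have := deg_le hG hm
      simp only [Finset.mem_product, Finset.mem_range]
      omega
    have h2 := Finset.card_le_card h1
    rw [Finset.card_image_of_injective, Finset.card_product, Finset.card_range] at h2
    · rw [sq]; exact h2
    · intro m m' hmm
      simp only [Prod.mk.injEq] at hmm
      ext i
      fin_cases i
      · exact hmm.1
      · exact hmm.2
  have hcH : 0 ≤ c * HF F := mul_nonneg hc hHF
  calc HF G ≤ ∑ m ∈ G.support, c * HF F := Finset.sum_le_sum hcoef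
    _ = G.support.card * (c * HF F) := by rw [Finset.sum_const, nsmul_eq_mul]
    _ ≤ ((D + 1) ^ 2 : ℕ) * (c * HF F) :=
        mul_le_mul_of_nonneg_right (by exact_mod_cast hsupp) hcH
    _ ≤ (((D + 1) ^ 2 : ℕ) * c + 1) * HF F := by
        rw [add_mul, one_mul, mul_assoc]
        linarith

end

end Pool.Agent.H15D
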