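import Mathlib
import Pool.Agent.H20.Gen5
import Pool.Agent.H15D.Conic
import Pool.Agent.H15D.Factor
import Pool.Agent.H15D.Height

/-! Bound for the integer points of every plane curve with finitely many integer points and
distinct points at infinity rational over a fixed number field. -/

namespace Pool.Agent.H15D

open MvPolynomial Pool.Agent.H20

noncomputable section

/-- The exponent vector `(i, j)`. -/
def ex (i j : ℕ) : Fin 2 →₀ ℕ := Finsupp.single 0 i + Finsupp.single 1 j

theorem ex_zero (i j : ℕ) : ex i j 0 = i := by simp [ex]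
theorem ex_one (i j : ℕ) : ex i j 1 = j := by simp [ex]

theorem ex_eta (m : Fin 2 →₀ ℕ) : ex (m 0) (m 1) = m := by
  ext i
  fin_cases i
  · exact ex_zero _ _
  · exact ex_one _ _

theorem degree_ex (i j : ℕ) : (ex i j).degree = i + j := by
  simp [ex]

theorem coeff_ex_eq_zero {R : Type*} [CommRing R] {G : MvPolynomial (Fin 2) R} {D i j : ℕ}
    (hG : G.totalDegree ≤ D) (h : D < i + j) : coeff (ex i j) G = 0 := by
  apply coeff_eq_zero_of_totalDegree_lt
  have : ∑ k ∈ (ex i j).support, (ex i j) k = i + j := by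
    rw [← Finsupp.degree_apply, degree_ex]
  omega

theorem eval_expand {R : Type*} [CommRing R] {G : MvPolynomial (Fin 2) R} {D : ℕ}
    (hG : G.totalDegree ≤ D) (x y : R) :
    eval ![x, y] G = ∑ i ∈ Finset.range (D + 1), ∑ j ∈ Finset.range (D + 1),
      coeff (ex i j) G * x ^ i * y ^ j := by
  classical
  rw [eval_eq', ← Finset.sum_product']
  have h1 : G.support ⊆ (Finset.range (D + 1) ×ˢ Finset.range (D + 1)).image
      (fun p : ℕ × ℕ => ex p.1 p.2) := by
    intro m hm
    rw [Finset.mem_image]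
    have h2 := le_totalDegree hm
    rw [Finsupp.sum_fintype _ _ (by simp), Fin.sum_univ_two] at h2
    refine ⟨(m 0, m 1), ?_, ex_eta m⟩
    simp only [Finset.mem_product, Finset.mem_range]
    omega
  rw [Finset.sum_subset h1 (fun m _ hm => by rw [notMem_support_iff.1 hm, zero_mul])]
  rw [Finset.sum_image]
  · apply Finset.sum_congr rfl
    intro p _
    rw [Fin.prod_univ_two, ex_zero, ex_one]
    simp only [Matrix.cons_val_zero, Matrix.cons_val_one]
    ring
  · intro p _ p' _ h
    have h0 := DFunLike.congr_fun h 0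
    have h1 := DFunLike.congr_fun h 1
    simp only [ex_zero, ex_one] at h0 h1
    exact Prod.ext h0 h1

theorem eval_lin {R : Type*} [CommRing R] {G : MvPolynomial (Fin 2) R}
    (hG : G.totalDegree ≤ 1) (x y : R) :
    eval ![x, y] G = coeff (ex 1 0) G * x + coeff (ex 0 1) G * y + coeff (ex 0 0) G := by
  rw [eval_expand hG]
  simp only [Finset.sum_range_succ, Finset.range_zero, Finset.sum_empty]
  rw [coeff_ex_eq_zero hG (show 1 < 1 + 1 by norm_num)]
  ring

theorem eval_quad {R : Type*} [CommRing R] {G : MvPolynomial (Fin 2) R}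
    (hG : G.totalDegree ≤ 2) (x y : R) :
    eval ![x, y] G = coeff (ex 2 0) G * x ^ 2 + coeff (ex 1 1) G * x * y +
      coeff (ex 0 2) G * y ^ 2 + coeff (ex 1 0) G * x + coeff (ex 0 1) G * y +
      coeff (ex 0 0) G := by
  rw [eval_expand hG]
  simp only [Finset.sum_range_succ, Finset.range_zero, Finset.sum_empty]
  rw [coeff_ex_eq_zero hG (show 2 < 1 + 2 by norm_num),
    coeff_ex_eq_zero hG (show 2 < 2 + 1 by norm_num),
    coeff_ex_eq_zero hG (show 2 < 2 + 2 by norm_num)]
  ring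

/-- The integer height. -/
def HI (F : MvPolynomial (Fin 2) ℤ) : ℤ := ∑ m ∈ F.support, |F.coeff m|

theorem HI_cast (F : MvPolynomial (Fin 2) ℤ) : ((HI F : ℤ) : ℝ) = HF F := by
  rw [HI, HF]
  push_cast
  rfl

theorem coeff_le_HI (F : MvPolynomial (Fin 2) ℤ) (m : Fin 2 →₀ ℕ) : |F.coeff m| ≤ HI F := by
  by_cases h : m ∈ F.support
  · exact Finset.single_le_sum (f := fun m => |F.coeff m|) (fun m _ => abs_nonneg _) h
  · rw [notMem_support_iff.1 h, abs_zero]
    exact Finset.sum_nonneg fun m _ => abs_nonneg _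

theorem one_le_HI {F : MvPolynomial (Fin 2) ℤ} (hF : F ≠ 0) : 1 ≤ HI F := by
  obtain ⟨m, hm⟩ := support_nonempty.2 hF
  exact (Int.one_le_abs (mem_support_iff.1 hm)).trans (coeff_le_HI F m)

/-- The conclusion for one curve. -/
theorem conic_case {K : Type} [Field K] [CharZero K] {G : MvPolynomial (Fin 2) ℤ}
    (hG : G.totalDegree = 2) (hG0 : G ≠ 0) {u v : Fin 2 → K} (h : LeadSplits K 2 G u v)
    (hfin : {p : ℤ × ℤ | eval ![p.1, p.2] G = 0}.Finite) {x y : ℤ}
    (hxy : eval ![x, y] G = 0) :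
    |(x : ℝ)| ≤ 323 * HF G ^ 6 ∧ |(y : ℝ)| ≤ 323 * HF G ^ 6 := by
  have hle : G.totalDegree ≤ 2 := hG.le
  obtain ⟨hpair, hprod⟩ := h
  have htop : (homogeneousComponent 2 G).totalDegree ≤ 2 :=
    (homogeneousComponent_isHomogeneous 2 G).totalDegree_le
  have hev : ∀ s t : ℤ, ((coeff (ex 2 0) G : ℤ) : K) * s ^ 2 +
      ((coeff (ex 1 1) G : ℤ) : K) * s * t + ((coeff (ex 0 2) G : ℤ) : K) * t ^ 2 =
        (u 0 * s + v 0 * t) * (u 1 * s + v 1 * t) := by
    intro s t
    have h1 := congrArg (eval ![(s : K), (t : K)]) hprod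
    rw [eval_map, Fin.prod_univ_two] at h1
    simp only [map_mul, map_add, eval_C, eval_X, Matrix.cons_val_zero, Matrix.cons_val_one] at h1
    rw [← h1]
    have h2 : eval₂ (Int.castRingHom K) ![(s : K), (t : K)] (homogeneousComponent 2 G) =
        ((eval ![s, t] (homogeneousComponent 2 G) : ℤ) : K) := by
      have h3 : ![(s : K), (t : K)] = (Int.castRingHom K) ∘ ![s, t] := by
        funext i
        fin_cases i <;> simp
      have h4 := eval₂_comp_left (Int.castRingHom K) (RingHom.id ℤ) ![s, t]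
        (homogeneousComponent 2 G)
      rw [RingHom.comp_id] at h4
      rw [h3, ← h4]
      rfl
    rw [h2, eval_quad htop]
    simp only [coeff_homogeneousComponent, degree_ex]
    push_cast
    norm_num
  have e1 := hev 1 0
  have e2 := hev 0 1
  have e3 := hev 1 1
  push_cast at e1 e2 e3
  have hD : coeff (ex 1 1) G ^ 2 - 4 * coeff (ex 2 0) G * coeff (ex 0 2) G ≠ 0 := by
    intro h0
    have h1 : ((coeff (ex 1 1) G ^ 2 - 4 * coeff (ex 2 0) G * coeff (ex 0 2) G : ℤ) : K) = 0 := by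
      rw [h0]; simp
    push_cast at h1
    apply hpair 0 1 (by decide)
    have h2 : (u 0 * v 1 - u 1 * v 0) ^ 2 = 0 := by
      rw [← h1]
      have a1 : ((coeff (ex 2 0) G : ℤ) : K) = u 0 * u 1 := by linear_combination e1
      have a2 : ((coeff (ex 0 2) G : ℤ) : K) = v 0 * v 1 := by linear_combination e2
      have a3 : ((coeff (ex 1 1) G : ℤ) : K) = u 0 * v 1 + u 1 * v 0 := by
        linear_combination e3 - a1 - a2
      rw [a1, a2, a3]
      ring
    have h3 := (pow_eq_zero_iff two_ne_zero).1 h2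
    linear_combination h3
  have hfin' : {p : ℤ × ℤ | coeff (ex 2 0) G * p.1 ^ 2 + coeff (ex 1 1) G * p.1 * p.2 +
      coeff (ex 0 2) G * p.2 ^ 2 + coeff (ex 1 0) G * p.1 + coeff (ex 0 1) G * p.2 +
      coeff (ex 0 0) G = 0}.Finite := by
    apply hfin.subset
    rintro p hp
    change eval ![p.1, p.2] G = 0
    rw [eval_quad hle]
    exact hp
  rw [eval_quad hle] at hxy
  have h1 := conic_bound hD hfin' (one_le_HI hG0) (coeff_le_HI G _) (coeff_le_HI G _)
    (coeff_le_HI G _) (coeff_le_HI G _) (coeff_le_HI G _) (coeff_le_HI G _) hxy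
  rw [← HI_cast]
  constructor
  · exact_mod_cast h1.1
  · exact_mod_cast h1.2

theorem line_case {G : MvPolynomial (Fin 2) ℤ} (hG : G.totalDegree = 1)
    (hfin : {p : ℤ × ℤ | eval ![p.1, p.2] G = 0}.Finite) {x y : ℤ}
    (hxy : eval ![x, y] G = 0) : False := by
  have hAB : coeff (ex 1 0) G ≠ 0 ∨ coeff (ex 0 1) G ≠ 0 := by
    by_contra hcon
    push Not at hcon
    have hle : G.totalDegree ≤ 0 := by
      apply Finset.sup_le
      intro m hm
      have h2 := le_totalDegree hm
      rw [Finsupp.sum_fintype _ _ (by simp), Fin.sum_univ_two, hG] at h2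
      rw [Finsupp.sum_fintype _ _ (by simp), Fin.sum_univ_two]
      by_contra h3
      have h4 : (m 0 = 1 ∧ m 1 = 0) ∨ (m 0 = 0 ∧ m 1 = 1) := by omega
      rw [mem_support_iff, ← ex_eta m] at hm
      rcases h4 with ⟨h5, h6⟩ | ⟨h5, h6⟩
      · rw [h5, h6] at hm
        exact hm hcon.1
      · rw [h5, h6] at hm
        exact hm hcon.2
    omega
  have hxy' := hxy
  rw [eval_lin hG.le] at hxy'
  apply line_infinite hAB hxy'
  apply hfin.subset
  intro p hp
  change eval ![p.1, p.2] G = 0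
  rw [eval_lin hG.le]
  exact hp

/-- **Main bound.** -/
theorem main_bound (D : ℕ) : ∃ k : ℕ, ∀ (K : Type) [Field K] [NumberField K], ∃ A : ℝ, 1 ≤ A ∧
    ∀ F : MvPolynomial (Fin 2) ℤ, F ≠ 0 → F.totalDegree ≤ D →
      ∀ u v : Fin F.totalDegree → K, LeadSplits K F.totalDegree F u v →
      {p : ℤ × ℤ | eval ![p.1, p.2] F = 0}.Finite → ∀ x y : ℤ, eval ![x, y] F = 0 →
        |(x : ℝ)| ≤ A * HF F ^ k ∧ |(y : ℝ)| ≤ A * HF F ^ k := by
  obtain ⟨c, hc1, hc⟩ := height_factor D
  refine ⟨6 + ∑ e ∈ Finset.range (D + 1), e * (kap e + 1), fun K _ _ => ?_⟩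
  set k := 6 + ∑ e ∈ Finset.range (D + 1), e * (kap e + 1) with hk
  have hA : ∀ e : ℕ, ∃ A : ℝ, 1 ≤ A ∧ (3 ≤ e → ∀ F : MvPolynomial (Fin 2) ℤ,
      Irreducible (map (Int.castRingHom ℚ) F) → F.totalDegree ≤ e →
      ∀ u v : Fin e → K, LeadSplits K e F u v →
      ∀ x y : ℤ, eval ![x, y] F = 0 →
        |(x : ℝ)| ≤ A * HF F ^ (e * (kap e + 1)) ∧ |(y : ℝ)| ≤ A * HF F ^ (e * (kap e + 1))) := by
    intro e
    by_cases he : 3 ≤ e
    · obtain ⟨A, h1, h2⟩ := general_bound' e he K
      exact ⟨A, h1, fun _ => h2⟩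
    · exact ⟨1, le_rfl, fun h => absurd h he⟩
  choose A hA1 hA2 using hA
  have hApos : ∀ e, 0 ≤ A e := fun e => zero_le_one.trans (hA1 e)
  set AA : ℝ := (323 + ∑ e ∈ Finset.range (D + 1), A e) * c ^ k with hAA
  have hsum0 : 0 ≤ ∑ e ∈ Finset.range (D + 1), A e := Finset.sum_nonneg fun e _ => hApos e
  have hck : 1 ≤ c ^ k := one_le_pow₀ hc1
  refine ⟨AA, ?_, ?_⟩
  · rw [hAA]
    exact one_le_mul_of_one_le_of_one_le (by linarith) hck
  intro F hF0 hFD u v hlead hfin x y hxy
  obtain ⟨G, hGF, hirr, hG0⟩ := exists_factor hF0 hxy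
  have hGne : G ≠ 0 := hirr.ne_zero
  obtain ⟨Q, hQ⟩ := hGF
  have hQne : Q ≠ 0 := by
    rintro rfl
    rw [mul_zero] at hQ
    exact hF0 hQ
  have hdeg : F.totalDegree = G.totalDegree + Q.totalDegree := by
    rw [hQ, totalDegree_mul_of_isDomain hGne hQne]
  have hfinG : {p : ℤ × ℤ | eval ![p.1, p.2] G = 0}.Finite := by
    apply hfin.subset
    intro p hp
    change eval ![p.1, p.2] F = 0
    have hp' : eval ![p.1, p.2] G = 0 := hp
    rw [hQ, map_mul, hp', zero_mul]
  -- heights
  have hHF1 : 1 ≤ HF F := by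
    rw [← HI_cast]
    exact_mod_cast one_le_HI hF0
  have hHG : HF G ≤ c * HF F := hc F G hF0 hFD ⟨Q, hQ⟩
  have hHG0 : 0 ≤ HF G := Finset.sum_nonneg fun _ _ => abs_nonneg _
  have hcH : 1 ≤ c * HF F := one_le_mul_of_one_le_of_one_le hc1 hHF1
  -- it suffices to have a bound B * HF G ^ j with j <= k and B <= 323 + sum
  have fin : ∀ (B : ℝ) (j : ℕ), 0 ≤ B → B ≤ 323 + ∑ e ∈ Finset.range (D + 1), A e → j ≤ k →
      B * HF G ^ j ≤ AA * HF F ^ k := by
    intro B j hB0 hB hj
    calc B * HF G ^ j ≤ B * (c * HF F) ^ k := by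
          apply mul_le_mul_of_nonneg_left _ hB0
          exact (pow_le_pow_left₀ hHG0 hHG j).trans (pow_le_pow_right₀ hcH hj)
      _ ≤ (323 + ∑ e ∈ Finset.range (D + 1), A e) * (c * HF F) ^ k :=
          mul_le_mul_of_nonneg_right hB (by positivity)
      _ = AA * HF F ^ k := by rw [hAA, mul_pow]; ring
  set e := G.totalDegree with he
  have heD : e ≤ D := by omega
  have he1 : 1 ≤ e := by
    by_contra h0
    have h1 : G.totalDegree = 0 := by omega
    rw [totalDegree_eq_zero_iff_eq_C] at h1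
    rw [h1, eval_C] at hG0
    rw [hG0, C_0] at h1
    exact hGne h1
  rcases Nat.lt_or_ge e 2 with h2 | h2
  · exact (line_case (G := G) (by omega) hfinG hG0).elim
  -- the leading form of G splits
  have hd2 : 2 ≤ F.totalDegree := by omega
  obtain ⟨hpair, hprod⟩ := hlead
  have huv : ∀ i, u i ≠ 0 ∨ v i ≠ 0 := by
    intro i
    by_contra hcon
    push Not at hcon
    have : Nontrivial (Fin F.totalDegree) := Fin.nontrivial_iff_two_le.2 hd2
    obtain ⟨j, hj⟩ := exists_ne i
    apply hpair i j hj.symm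
    rw [hcon.1, hcon.2]
    ring
  have htop : map (Int.castRingHom K) (homogeneousComponent e G) *
      map (Int.castRingHom K) (homogeneousComponent Q.totalDegree Q) =
      ∏ i, lf (u i) (v i) := by
    rw [← map_mul, ← top_mul G Q e Q.totalDegree le_rfl le_rfl, ← hQ, ← hdeg]
    exact hprod
  obtain ⟨u', v', hpair', hprod'⟩ := split_factor he1 huv hpair
    ((homogeneousComponent_isHomogeneous e G).map _) htop
  have hsplit : LeadSplits K e G u' v' := ⟨hpair', hprod'⟩
  rcases Nat.lt_or_ge e 3 with h3 | h3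
  · have he2 : G.totalDegree = 2 := by omega
    have heq : e = 2 := by omega
    clear_value e
    subst heq
    have h4 := conic_case he2 hGne hsplit hfinG hG0
    have h5 := fin 323 6 (by norm_num) (by linarith) (by omega)
    exact ⟨h4.1.trans h5, h4.2.trans h5⟩
  · have h4 := hA2 e h3 G (irreducible_map hirr hG0) le_rfl u' v' hsplit x y hG0
    have h5 := fin (A e) (e * (kap e + 1)) (hApos e) (by
      have := Finset.single_le_sum (f := A) (fun e _ => hApos e)
        (Finset.mem_range.2 (Nat.lt_succ_of_le heD))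
      linarith) (by
      have h6 : e * (kap e + 1) ≤ ∑ e ∈ Finset.range (D + 1), e * (kap e + 1) :=
        Finset.single_le_sum (f := fun e => e * (kap e + 1)) (fun e _ => Nat.zero_le _)
          (Finset.mem_range.2 (Nat.lt_succ_of_le heD))
      omega)
    exact ⟨h4.1.trans h5, h4.2.trans h5⟩

end

end Pool.Agent.H15D
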