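import Mathlib
import Pool.Agent.H15D.Main

/-! Assembly: from irreducible curves to all curves with finitely many integer points. -/

namespace Pool.Agent.H15D

open MvPolynomial Pool.Agent.H20

noncomputable section

/-- The leading form. -/
def top (F : MvPolynomial (Fin 2) ℤ) : MvPolynomial (Fin 2) ℤ :=
  homogeneousComponent F.totalDegree F

/-- Every zero `z` of the form `H(1, z)` has degree at most `m` over `ℚ`, or the field it generates
contains a copy of `K₀`. -/
def FieldCond (K₀ : Type) [Field K₀] (m : ℕ) (H : MvPolynomial (Fin 2) ℤ) : Prop :=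
  ∀ z : ℂ, eval₂ (Int.castRingHom ℂ) ![1, z] H = 0 →
    (minpoly ℚ z).natDegree ≤ m ∨ Nonempty (K₀ →+* IntermediateField.adjoin ℚ {z})

theorem top_mul' {G Q : MvPolynomial (Fin 2) ℤ} (hG : G ≠ 0) (hQ : Q ≠ 0) :
    top (G * Q) = top G * top Q := by
  rw [top, totalDegree_mul_of_isDomain hG hQ]
  exact top_mul G Q _ _ le_rfl le_rfl

theorem FieldCond.of_mul_left {K₀ : Type} [Field K₀] {m : ℕ} {H H' : MvPolynomial (Fin 2) ℤ}
    (h : FieldCond K₀ m (H * H')) : FieldCond K₀ m H := by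
  intro z hz
  apply h
  rw [eval₂_mul, hz, zero_mul]

theorem conic_case' {G : MvPolynomial (Fin 2) ℤ}
    (hG : G.totalDegree = 2) (hG0 : G ≠ 0) (h : Squarefree (map (Int.castRingHom ℚ) (top G)))
    (hfin : {p : ℤ × ℤ | eval ![p.1, p.2] G = 0}.Finite) {x y : ℤ}
    (hxy : eval ![x, y] G = 0) :
    |(x : ℝ)| ≤ 323 * HF G ^ 6 ∧ |(y : ℝ)| ≤ 323 * HF G ^ 6 := by
  have hle : G.totalDegree ≤ 2 := hG.le
  have htop : top G = C (coeff (ex 2 0) G) * X 0 ^ 2 + C (coeff (ex 1 1) G) * X 0 * X 1 +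
      C (coeff (ex 0 2) G) * X 1 ^ 2 := by
    rw [top, hG]
    have h1 : (homogeneousComponent 2 G).totalDegree ≤ 2 :=
      (homogeneousComponent_isHomogeneous 2 G).totalDegree_le
    apply MvPolynomial.funext
    intro v
    have h2 : v = ![v 0, v 1] := by
      funext i
      fin_cases i <;> rfl
    rw [h2, eval_quad h1]
    simp only [coeff_homogeneousComponent, degree_ex, map_add, map_mul, map_pow, eval_C, eval_X,
      Matrix.cons_val_zero, Matrix.cons_val_one]
    norm_num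
  have hD : coeff (ex 1 1) G ^ 2 - 4 * coeff (ex 2 0) G * coeff (ex 0 2) G ≠ 0 := by
    intro h0
    rw [htop] at h
    rw [map_add, map_add, map_mul, map_mul, map_mul, map_mul, map_pow, map_pow, map_C, map_C,
      map_C, map_X, map_X] at h
    simp only [eq_intCast] at h
    have hD' : ((coeff (ex 1 1) G : ℤ) : ℚ) ^ 2 - 4 * ((coeff (ex 2 0) G : ℤ) : ℚ) *
        ((coeff (ex 0 2) G : ℤ) : ℚ) = 0 := by exact_mod_cast h0
    set a : ℚ := ((coeff (ex 2 0) G : ℤ) : ℚ) with ha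
    set b : ℚ := ((coeff (ex 1 1) G : ℤ) : ℚ) with hb
    set c : ℚ := ((coeff (ex 0 2) G : ℤ) : ℚ) with hc
    by_cases ha0 : a = 0
    · have hb0 : b = 0 := by
        have : b ^ 2 = 0 := by rw [ha0] at hD'; linarith
        exact (pow_eq_zero_iff two_ne_zero).1 this
      have h3 : (X 1 : MvPolynomial (Fin 2) ℚ) * X 1 ∣ C a * X 0 ^ 2 + C b * X 0 * X 1 +
          C c * X 1 ^ 2 := ⟨C c, by rw [ha0, hb0, C_0]; ring⟩
      have h4 := h _ h3
      exact X_prime.not_isUnit h4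
    · have h3 : (C (2 * a) * X 0 + C b * X 1 : MvPolynomial (Fin 2) ℚ) *
          (C (2 * a) * X 0 + C b * X 1) ∣ C a * X 0 ^ 2 + C b * X 0 * X 1 +
          C c * X 1 ^ 2 := by
        refine ⟨C (1 / (4 * a)), ?_⟩
        have e1 : a = (2 * a) * (2 * a) * (1 / (4 * a)) := by field_simp; ring
        have e2 : b = 2 * ((2 * a) * b) * (1 / (4 * a)) := by field_simp; ring
        have e3 : c = b * b * (1 / (4 * a)) := by
          field_simp
          linarith
        have e1' : (C a : MvPolynomial (Fin 2) ℚ) = C (2 * a) * C (2 * a) * C (1 / (4 * a)) := by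
          rw [← C_mul, ← C_mul, ← e1]
        have e2' : (C b : MvPolynomial (Fin 2) ℚ) = 2 * (C (2 * a) * C b) * C (1 / (4 * a)) := by
          have : (2 : MvPolynomial (Fin 2) ℚ) = C 2 := rfl
          rw [this, ← C_mul, ← C_mul, ← C_mul, ← e2]
        have e3' : (C c : MvPolynomial (Fin 2) ℚ) = C b * C b * C (1 / (4 * a)) := by
          rw [← C_mul, ← C_mul, ← e3]
        linear_combination (X 0 ^ 2 : MvPolynomial (Fin 2) ℚ) * e1' + (X 0 * X 1) * e2' +
          (X 1 ^ 2) * e3'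
      have h4 := h _ h3
      have h5 := lf_prime (α := 2 * a) (β := b) (Or.inl (mul_ne_zero two_ne_zero ha0))
      exact h5.not_isUnit h4
  have hfin' : {p : ℤ × ℤ | coeff (ex 2 0) G * p.1 ^ 2 + coeff (ex 1 1) G * p.1 * p.2 +
      coeff (ex 0 2) G * p.2 ^ 2 + coeff (ex 1 0) G * p.1 + coeff (ex 0 1) G * p.2 +
      coeff (ex 0 0) G = 0}.Finite := by
    apply hfin.subset
    rintro p hp
    change eval ![p.1, p.2] G = 0
    rw [eval_quad hle]
    exact hp
  rw [eval_quad hle] at hxy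
  have h1 := conic_bound hD hfin' (one_le_HI hG0) (coeff_le_HI G _) (coeff_le_HI G _)
    (coeff_le_HI G _) (coeff_le_HI G _) (coeff_le_HI G _) (coeff_le_HI G _) hxy
  rw [← HI_cast]
  constructor
  · exact_mod_cast h1.1
  · exact_mod_cast h1.2

/-- **Assembly.** `k e` and `A e` are the exponent and the constant for irreducible curves of
degree `e ≥ 3`. -/
theorem assemble (D : ℕ) (k : ℕ → ℕ) : ∃ kk : ℕ, ∀ (K₀ : Type) [Field K₀] (A : ℕ → ℝ),
    (∀ e, 1 ≤ A e) →
    (∀ e, 3 ≤ e → ∀ F : MvPolynomial (Fin 2) ℤ, Irreducible (map (Int.castRingHom ℚ) F) →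
      F.totalDegree = e → Squarefree (map (Int.castRingHom ℚ) (top F)) →
      FieldCond K₀ 2 (top F) → ∀ x y : ℤ, eval ![x, y] F = 0 →
        |(x : ℝ)| ≤ A e * HF F ^ (k e) ∧ |(y : ℝ)| ≤ A e * HF F ^ (k e)) →
    ∃ AA : ℝ, 1 ≤ AA ∧ ∀ F : MvPolynomial (Fin 2) ℤ, F ≠ 0 → F.totalDegree ≤ D →
      Squarefree (map (Int.castRingHom ℚ) (top F)) → FieldCond K₀ 2 (top F) →
      {p : ℤ × ℤ | eval ![p.1, p.2] F = 0}.Finite → ∀ x y : ℤ, eval ![x, y] F = 0 →
        |(x : ℝ)| ≤ AA * HF F ^ kk ∧ |(y : ℝ)| ≤ AA * HF F ^ kk := by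
  obtain ⟨c, hc1, hc⟩ := height_factor D
  refine ⟨6 + ∑ e ∈ Finset.range (D + 1), k e, fun K₀ _ A hA1 hA2 => ?_⟩
  set kk := 6 + ∑ e ∈ Finset.range (D + 1), k e with hkk
  have hApos : ∀ e, 0 ≤ A e := fun e => zero_le_one.trans (hA1 e)
  set AA : ℝ := (323 + ∑ e ∈ Finset.range (D + 1), A e) * c ^ kk with hAA
  have hsum0 : 0 ≤ ∑ e ∈ Finset.range (D + 1), A e := Finset.sum_nonneg fun e _ => hApos e
  have hck : 1 ≤ c ^ kk := one_le_pow₀ hc1
  refine ⟨AA, ?_, ?_⟩
  · rw [hAA]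
    exact one_le_mul_of_one_le_of_one_le (by linarith) hck
  intro F hF0 hFD hsq hfc hfin x y hxy
  obtain ⟨G, hGF, hirr, hG0⟩ := exists_factor hF0 hxy
  have hGne : G ≠ 0 := hirr.ne_zero
  obtain ⟨Q, hQ⟩ := hGF
  have hQne : Q ≠ 0 := by
    rintro rfl
    rw [mul_zero] at hQ
    exact hF0 hQ
  have hdeg : F.totalDegree = G.totalDegree + Q.totalDegree := by
    rw [hQ, totalDegree_mul_of_isDomain hGne hQne]
  have hfinG : {p : ℤ × ℤ | eval ![p.1, p.2] G = 0}.Finite := by
    apply hfin.subset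
    intro p hp
    change eval ![p.1, p.2] F = 0
    have hp' : eval ![p.1, p.2] G = 0 := hp
    rw [hQ, map_mul, hp', zero_mul]
  -- heights
  have hHF1 : 1 ≤ HF F := by
    rw [← HI_cast]
    exact_mod_cast one_le_HI hF0
  have hHG : HF G ≤ c * HF F := hc F G hF0 hFD ⟨Q, hQ⟩
  have hHG0 : 0 ≤ HF G := Finset.sum_nonneg fun _ _ => abs_nonneg _
  have hcH : 1 ≤ c * HF F := one_le_mul_of_one_le_of_one_le hc1 hHF1
  have fin : ∀ (B : ℝ) (j : ℕ), 0 ≤ B → B ≤ 323 + ∑ e ∈ Finset.range (D + 1), A e → j ≤ kk →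
      B * HF G ^ j ≤ AA * HF F ^ kk := by
    intro B j hB0 hB hj
    calc B * HF G ^ j ≤ B * (c * HF F) ^ kk := by
          apply mul_le_mul_of_nonneg_left _ hB0
          exact (pow_le_pow_left₀ hHG0 hHG j).trans (pow_le_pow_right₀ hcH hj)
      _ ≤ (323 + ∑ e ∈ Finset.range (D + 1), A e) * (c * HF F) ^ kk :=
          mul_le_mul_of_nonneg_right hB (by positivity)
      _ = AA * HF F ^ kk := by rw [hAA, mul_pow]; ring
  have heD : G.totalDegree ≤ D := by omega
  have he1 : 1 ≤ G.totalDegree := by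
    by_contra h0
    have h1 : G.totalDegree = 0 := by omega
    rw [totalDegree_eq_zero_iff_eq_C] at h1
    rw [h1, eval_C] at hG0
    rw [hG0, C_0] at h1
    exact hGne h1
  rw [hQ, top_mul' hGne hQne] at hsq hfc
  have hsqG : Squarefree (map (Int.castRingHom ℚ) (top G)) := by
    rw [map_mul] at hsq
    exact hsq.squarefree_of_dvd (dvd_mul_right _ _)
  have hfcG := hfc.of_mul_left
  rcases Nat.lt_or_ge G.totalDegree 2 with h2 | h2
  · exact (line_case (G := G) (by omega) hfinG hG0).elim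
  rcases Nat.lt_or_ge G.totalDegree 3 with h3 | h3
  · have h4 := conic_case' (by omega) hGne hsqG hfinG hG0
    have h5 := fin 323 6 (by norm_num) (by linarith) (by omega)
    exact ⟨h4.1.trans h5, h4.2.trans h5⟩
  · have h4 := hA2 _ h3 G (irreducible_map hirr hG0) rfl hsqG hfcG x y hG0
    have h5 := fin (A G.totalDegree) (k G.totalDegree) (hApos _) (by
      have := Finset.single_le_sum (f := A) (fun e _ => hApos e)
        (Finset.mem_range.2 (Nat.lt_succ_of_le heD))
      linarith) (by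
      have h6 : k G.totalDegree ≤ ∑ e ∈ Finset.range (D + 1), k e :=
        Finset.single_le_sum (f := k) (fun e _ => Nat.zero_le _)
          (Finset.mem_range.2 (Nat.lt_succ_of_le heD))
      omega)
    exact ⟨h4.1.trans h5, h4.2.trans h5⟩

end

end Pool.Agent.H15D
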