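import Mathlib
import Pool.Agent.H15D.Main

/-! Generic assembly (no squarefreeness of the leading form): from irreducible curves of degree at
least three to all curves with finitely many integer points. -/

namespace Pool.Agent.H15D

open MvPolynomial Pool.Agent.H20

noncomputable section

/-- an injective sequence of integer points gives an infinite set -/
theorem infinite_of_seq {S : Set (ℤ × ℤ)} (g : ℤ → ℤ × ℤ) (T : ℤ × ℤ → ℤ) (t M : ℤ) (hM : M ≠ 0)
    (hT : ∀ s, T (g s) = t + M * s) (hg : ∀ s, g s ∈ S) : ¬ S.Finite := by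
  intro hfin
  have hinj : Function.Injective g := by
    intro s s' h
    have h1 := hT s
    rw [h, hT s'] at h1
    have h2 : M * (s' - s) = 0 := by linarith
    rcases mul_eq_zero.1 h2 with h3 | h3
    · exact absurd h3 hM
    · linarith
  exact Set.infinite_of_injective_forall_mem hinj hg hfin

theorem parabola_infinite {a b c d e f x₀ y₀ : ℤ} (ha : a ≠ 0) (hD : b ^ 2 - 4 * a * c = 0)
    (hk : 2 * a * e - b * d ≠ 0)
    (h0 : a * x₀ ^ 2 + b * x₀ * y₀ + c * y₀ ^ 2 + d * x₀ + e * y₀ + f = 0) :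
    ¬ {p : ℤ × ℤ | a * p.1 ^ 2 + b * p.1 * p.2 + c * p.2 ^ 2 + d * p.1 + e * p.2 + f = 0}.Finite := by
  set κ : ℤ := 2 * (2 * a * e - b * d) with hκ
  set t : ℤ := 2 * a * x₀ + b * y₀ with ht
  refine infinite_of_seq
    (fun s => (x₀ + κ * s + b * s * (2 * t + 2 * a * κ * s + 2 * d),
      y₀ - 2 * a * s * (2 * t + 2 * a * κ * s + 2 * d)))
    (fun p => 2 * a * p.1 + b * p.2) t (2 * a * κ) ?_ ?_ ?_
  · exact mul_ne_zero (mul_ne_zero two_ne_zero ha) (mul_ne_zero two_ne_zero hk)
  · intro s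
    simp only
    rw [ht]
    ring
  · intro s
    simp only [Set.mem_ofPred_eq]
    have h4 : (4 * a : ℤ) ≠ 0 := mul_ne_zero (by norm_num) ha
    apply (mul_right_inj' h4).1
    rw [mul_zero]
    have key : ∀ X Y : ℤ, 4 * a * (a * X ^ 2 + b * X * Y + c * Y ^ 2 + d * X + e * Y + f) =
        (2 * a * X + b * Y) ^ 2 + 2 * d * (2 * a * X + b * Y) + κ * Y + 4 * a * f := by
      intro X Y
      rw [hκ]
      linear_combination (-Y ^ 2) * hD
    have h1 := key x₀ y₀
    rw [h0, mul_zero, ← ht] at h1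
    rw [key]
    have h2 : 2 * a * (x₀ + κ * s + b * s * (2 * t + 2 * a * κ * s + 2 * d)) +
        b * (y₀ - 2 * a * s * (2 * t + 2 * a * κ * s + 2 * d)) = t + 2 * a * κ * s := by
      rw [ht]; ring
    rw [h2]
    linear_combination (-1 : ℤ) * h1

theorem parabola_infinite' {c d e f x₀ y₀ : ℤ} (hd : d ≠ 0)
    (h0 : c * y₀ ^ 2 + d * x₀ + e * y₀ + f = 0) :
    ¬ {p : ℤ × ℤ | c * p.2 ^ 2 + d * p.1 + e * p.2 + f = 0}.Finite := by
  refine infinite_of_seq
    (fun s => (x₀ - s * (2 * c * y₀ + c * d * s + e), y₀ + d * s))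
    (fun p => p.2) y₀ d hd (fun s => rfl) ?_
  intro s
  simp only [Set.mem_ofPred_eq]
  linear_combination h0

theorem not_isUnit_of_eval {p : MvPolynomial (Fin 2) ℚ} {v : Fin 2 → ℚ} (h : eval v p = 0) :
    ¬ IsUnit p := by
  intro hu
  have h1 := hu.map (eval v)
  rw [h] at h1
  exact not_isUnit_zero h1

theorem conic_caseG {G : MvPolynomial (Fin 2) ℤ} (hG : G.totalDegree = 2) (hG0 : G ≠ 0)
    (hirr : Irreducible (map (Int.castRingHom ℚ) G))
    (hfin : {p : ℤ × ℤ | eval ![p.1, p.2] G = 0}.Finite) {x y : ℤ}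
    (hxy : eval ![x, y] G = 0) :
    |(x : ℝ)| ≤ 323 * HF G ^ 6 ∧ |(y : ℝ)| ≤ 323 * HF G ^ 6 := by
  have hle : G.totalDegree ≤ 2 := hG.le
  have hleQ : (map (Int.castRingHom ℚ) G).totalDegree ≤ 2 := by
    apply le_trans _ hle
    exact Finset.sup_mono (support_map_subset _ _)
  have hfin' : {p : ℤ × ℤ | coeff (ex 2 0) G * p.1 ^ 2 + coeff (ex 1 1) G * p.1 * p.2 +
      coeff (ex 0 2) G * p.2 ^ 2 + coeff (ex 1 0) G * p.1 + coeff (ex 0 1) G * p.2 +
      coeff (ex 0 0) G = 0}.Finite := by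
    apply hfin.subset
    rintro p hp
    change eval ![p.1, p.2] G = 0
    rw [eval_quad hle]
    exact hp
  have hxy' := hxy
  rw [eval_quad hle] at hxy'
  have hevQ : ∀ v : Fin 2 → ℚ, eval v (map (Int.castRingHom ℚ) G) =
      ((coeff (ex 2 0) G : ℤ) : ℚ) * v 0 ^ 2 + ((coeff (ex 1 1) G : ℤ) : ℚ) * v 0 * v 1 +
      ((coeff (ex 0 2) G : ℤ) : ℚ) * v 1 ^ 2 + ((coeff (ex 1 0) G : ℤ) : ℚ) * v 0 +
      ((coeff (ex 0 1) G : ℤ) : ℚ) * v 1 + ((coeff (ex 0 0) G : ℤ) : ℚ) := by
    intro v
    have h2 : v = ![v 0, v 1] := by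
      funext i
      fin_cases i <;> rfl
    rw [h2, eval_quad hleQ]
    simp only [coeff_map, eq_intCast, Matrix.cons_val_zero, Matrix.cons_val_one]
  have hD : coeff (ex 1 1) G ^ 2 - 4 * coeff (ex 2 0) G * coeff (ex 0 2) G ≠ 0 := by
    intro h0
    by_cases ha : coeff (ex 2 0) G = 0
    · have hb : coeff (ex 1 1) G = 0 := by
        rw [ha] at h0
        have : coeff (ex 1 1) G ^ 2 = 0 := by linarith
        exact (pow_eq_zero_iff two_ne_zero).1 this
      by_cases hd : coeff (ex 1 0) G = 0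
      · -- `G` depends only on `y`
        have hc : coeff (ex 0 2) G ≠ 0 := by
          intro hc
          have hle1 : G.totalDegree ≤ 1 := by
            apply Finset.sup_le
            intro m hm
            have h2 := le_totalDegree hm
            rw [Finsupp.sum_fintype _ _ (by simp), Fin.sum_univ_two, hG] at h2
            rw [Finsupp.sum_fintype _ _ (by simp), Fin.sum_univ_two]
            by_contra h3
            have h4 : (m 0 = 2 ∧ m 1 = 0) ∨ (m 0 = 1 ∧ m 1 = 1) ∨ (m 0 = 0 ∧ m 1 = 2) := by omega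
            rw [mem_support_iff, ← ex_eta m] at hm
            rcases h4 with ⟨h5, h6⟩ | ⟨h5, h6⟩ | ⟨h5, h6⟩
            · rw [h5, h6] at hm
              exact hm ha
            · rw [h5, h6] at hm
              exact hm hb
            · rw [h5, h6] at hm
              exact hm hc
          omega
        have hcQ : ((coeff (ex 0 2) G : ℤ) : ℚ) ≠ 0 := by exact_mod_cast hc
        have hfac : map (Int.castRingHom ℚ) G = (X 1 - C (y : ℚ)) *
            (C ((coeff (ex 0 2) G : ℤ) : ℚ) * X 1 +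
              C (((coeff (ex 0 2) G : ℤ) : ℚ) * y + ((coeff (ex 0 1) G : ℤ) : ℚ))) := by
          apply MvPolynomial.funext
          intro v
          rw [hevQ v, ha, hb, hd]
          simp only [map_mul, map_add, map_sub, eval_C, eval_X]
          have h1 : ((coeff (ex 0 2) G : ℤ) : ℚ) * (y : ℚ) ^ 2 +
              ((coeff (ex 0 1) G : ℤ) : ℚ) * y + ((coeff (ex 0 0) G : ℤ) : ℚ) = 0 := by
            rw [ha, hb, hd] at hxy'
            have := congrArg (fun z : ℤ => (z : ℚ)) hxy'
            push_cast at this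
            linarith
          push_cast
          linear_combination h1
        rcases hirr.isUnit_or_isUnit hfac with h1 | h1
        · refine not_isUnit_of_eval (v := ![0, (y : ℚ)]) ?_ h1
          simp
        · refine not_isUnit_of_eval (v := ![0, -(y : ℚ) - ((coeff (ex 0 1) G : ℤ) : ℚ) /
            ((coeff (ex 0 2) G : ℤ) : ℚ)]) ?_ h1
          simp only [map_add, map_mul, eval_C, eval_X, Matrix.cons_val_one, Matrix.cons_val_zero,
            Matrix.cons_val_fin_one]
          field_simp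
          ring
      · refine parabola_infinite' (c := coeff (ex 0 2) G) (e := coeff (ex 0 1) G)
          (f := coeff (ex 0 0) G) (x₀ := x) (y₀ := y) hd ?_ ?_
        · rw [ha, hb] at hxy'
          linarith
        · apply hfin'.subset
          intro p hp
          simp only [Set.mem_ofPred_eq] at hp ⊢
          rw [ha, hb]
          linarith
    · by_cases hk : 2 * coeff (ex 2 0) G * coeff (ex 0 1) G -
        coeff (ex 1 1) G * coeff (ex 1 0) G = 0
      · -- `G` depends only on `t = 2 a x + b y`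
        have haQ : ((coeff (ex 2 0) G : ℤ) : ℚ) ≠ 0 := by exact_mod_cast ha
        set a : ℚ := ((coeff (ex 2 0) G : ℤ) : ℚ) with haa
        set b : ℚ := ((coeff (ex 1 1) G : ℤ) : ℚ) with hbb
        set c : ℚ := ((coeff (ex 0 2) G : ℤ) : ℚ) with hcc
        set d : ℚ := ((coeff (ex 1 0) G : ℤ) : ℚ) with hdd
        set e : ℚ := ((coeff (ex 0 1) G : ℤ) : ℚ) with hee
        set f : ℚ := ((coeff (ex 0 0) G : ℤ) : ℚ) with hff
        set t : ℚ := 2 * a * x + b * y with ht
        have h0Q : b ^ 2 - 4 * a * c = 0 := by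
          rw [haa, hbb, hcc]; exact_mod_cast h0
        have hkQ : 2 * a * e - b * d = 0 := by
          rw [haa, hbb, hdd, hee]; exact_mod_cast hk
        have hxyQ : a * (x : ℚ) ^ 2 + b * x * y + c * (y : ℚ) ^ 2 + d * x + e * y + f = 0 := by
          rw [haa, hbb, hcc, hdd, hee, hff]; exact_mod_cast hxy'
        have hfac : map (Int.castRingHom ℚ) G = (C (2 * a) * X 0 + C b * X 1 - C t) *
            (C (1 / (4 * a)) * (C (2 * a) * X 0 + C b * X 1 + C (t + 2 * d))) := by
          apply MvPolynomial.funext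
          intro v
          rw [hevQ v]
          simp only [map_mul, map_add, map_sub, eval_C, eval_X]
          have h4 : (4 * a : ℚ) ≠ 0 := mul_ne_zero (by norm_num) haQ
          have h5 : (2 * a * v 0 + b * v 1 - t) *
              (1 / (4 * a) * (2 * a * v 0 + b * v 1 + (t + 2 * d))) =
              ((2 * a * v 0 + b * v 1 - t) * (2 * a * v 0 + b * v 1 + (t + 2 * d))) / (4 * a) := by
            field_simp
          rw [h5, eq_div_iff h4, ht]
          linear_combination (-(v 1) ^ 2 + (y : ℚ) ^ 2) * h0Q + (2 * v 1 - 2 * y) * hkQ +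
            (4 * a) * hxyQ
        rcases hirr.isUnit_or_isUnit hfac with h1 | h1
        · refine not_isUnit_of_eval (v := ![(x : ℚ), (y : ℚ)]) ?_ h1
          simp only [map_mul, map_add, map_sub, eval_C, eval_X, Matrix.cons_val_zero,
            Matrix.cons_val_one]
          rw [ht]; ring
        · refine not_isUnit_of_eval (v := ![-(t + 2 * d) / (2 * a), 0]) ?_ h1
          simp only [map_mul, map_add, eval_C, eval_X, Matrix.cons_val_zero,
            Matrix.cons_val_one]
          field_simp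
          ring
      · exact parabola_infinite ha h0 hk hxy' hfin'
  have h1 := conic_bound hD hfin' (one_le_HI hG0) (coeff_le_HI G _) (coeff_le_HI G _)
    (coeff_le_HI G _) (coeff_le_HI G _) (coeff_le_HI G _) (coeff_le_HI G _) hxy'
  rw [← HI_cast]
  constructor
  · exact_mod_cast h1.1
  · exact_mod_cast h1.2

/-- **Generic assembly.** `k e` and `A e` are the exponent and the constant for irreducible curves
of degree `e ≥ 3` in a class `P`. -/
theorem assembleG (D : ℕ) (k : ℕ → ℕ) : ∃ kk : ℕ,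
    ∀ (P : MvPolynomial (Fin 2) ℤ → Prop) (A : ℕ → ℝ),
    (∀ e, 1 ≤ A e) →
    (∀ e, 3 ≤ e → ∀ F : MvPolynomial (Fin 2) ℤ, Irreducible (map (Int.castRingHom ℚ) F) →
      F.totalDegree = e → P F → ∀ x y : ℤ, eval ![x, y] F = 0 →
        |(x : ℝ)| ≤ A e * HF F ^ (k e) ∧ |(y : ℝ)| ≤ A e * HF F ^ (k e)) →
    ∃ AA : ℝ, 1 ≤ AA ∧ ∀ F : MvPolynomial (Fin 2) ℤ, F ≠ 0 → F.totalDegree ≤ D →
      (∀ G : MvPolynomial (Fin 2) ℤ, G ∣ F → Irreducible (map (Int.castRingHom ℚ) G) →
        3 ≤ G.totalDegree → P G) →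
      {p : ℤ × ℤ | eval ![p.1, p.2] F = 0}.Finite → ∀ x y : ℤ, eval ![x, y] F = 0 →
        |(x : ℝ)| ≤ AA * HF F ^ kk ∧ |(y : ℝ)| ≤ AA * HF F ^ kk := by
  obtain ⟨c, hc1, hc⟩ := height_factor D
  refine ⟨6 + ∑ e ∈ Finset.range (D + 1), k e, fun P A hA1 hA2 => ?_⟩
  set kk := 6 + ∑ e ∈ Finset.range (D + 1), k e with hkk
  have hApos : ∀ e, 0 ≤ A e := fun e => zero_le_one.trans (hA1 e)
  set AA : ℝ := (323 + ∑ e ∈ Finset.range (D + 1), A e) * c ^ kk with hAA
  have hsum0 : 0 ≤ ∑ e ∈ Finset.range (D + 1), A e := Finset.sum_nonneg fun e _ => hApos e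
  have hck : 1 ≤ c ^ kk := one_le_pow₀ hc1
  refine ⟨AA, ?_, ?_⟩
  · rw [hAA]
    exact one_le_mul_of_one_le_of_one_le (by linarith) hck
  intro F hF0 hFD hP hfin x y hxy
  obtain ⟨G, hGF, hirr, hG0⟩ := exists_factor hF0 hxy
  have hGF' := hGF
  have hGne : G ≠ 0 := hirr.ne_zero
  obtain ⟨Q, hQ⟩ := hGF
  have hQne : Q ≠ 0 := by
    rintro rfl
    rw [mul_zero] at hQ
    exact hF0 hQ
  have hdeg : F.totalDegree = G.totalDegree + Q.totalDegree := by
    rw [hQ, totalDegree_mul_of_isDomain hGne hQne]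
  have hfinG : {p : ℤ × ℤ | eval ![p.1, p.2] G = 0}.Finite := by
    apply hfin.subset
    intro p hp
    change eval ![p.1, p.2] F = 0
    have hp' : eval ![p.1, p.2] G = 0 := hp
    rw [hQ, map_mul, hp', zero_mul]
  have hHF1 : 1 ≤ HF F := by
    rw [← HI_cast]
    exact_mod_cast one_le_HI hF0
  have hHG : HF G ≤ c * HF F := hc F G hF0 hFD ⟨Q, hQ⟩
  have hHG0 : 0 ≤ HF G := Finset.sum_nonneg fun _ _ => abs_nonneg _
  have hcH : 1 ≤ c * HF F := one_le_mul_of_one_le_of_one_le hc1 hHF1
  have fin : ∀ (B : ℝ) (j : ℕ), 0 ≤ B → B ≤ 323 + ∑ e ∈ Finset.range (D + 1), A e → j ≤ kk →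
      B * HF G ^ j ≤ AA * HF F ^ kk := by
    intro B j hB0 hB hj
    calc B * HF G ^ j ≤ B * (c * HF F) ^ kk := by
          apply mul_le_mul_of_nonneg_left _ hB0
          exact (pow_le_pow_left₀ hHG0 hHG j).trans (pow_le_pow_right₀ hcH hj)
      _ ≤ (323 + ∑ e ∈ Finset.range (D + 1), A e) * (c * HF F) ^ kk :=
          mul_le_mul_of_nonneg_right hB (by positivity)
      _ = AA * HF F ^ kk := by rw [hAA, mul_pow]; ring
  have heD : G.totalDegree ≤ D := by omega
  have he1 : 1 ≤ G.totalDegree := by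
    by_contra h0
    have h1 : G.totalDegree = 0 := by omega
    rw [totalDegree_eq_zero_iff_eq_C] at h1
    rw [h1, eval_C] at hG0
    rw [hG0, C_0] at h1
    exact hGne h1
  have hirrQ := irreducible_map hirr hG0
  rcases Nat.lt_or_ge G.totalDegree 2 with h2 | h2
  · exact (line_case (G := G) (by omega) hfinG hG0).elim
  rcases Nat.lt_or_ge G.totalDegree 3 with h3 | h3
  · have h4 := conic_caseG (by omega) hGne hirrQ hfinG hG0
    have h5 := fin 323 6 (by norm_num) (by linarith) (by omega)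
    exact ⟨h4.1.trans h5, h4.2.trans h5⟩
  · have h4 := hA2 _ h3 G hirrQ rfl (hP G hGF' hirrQ h3) x y hG0
    have h5 := fin (A G.totalDegree) (k G.totalDegree) (hApos _) (by
      have := Finset.single_le_sum (f := A) (fun e _ => hApos e)
        (Finset.mem_range.2 (Nat.lt_succ_of_le heD))
      linarith) (by
      have h6 : k G.totalDegree ≤ ∑ e ∈ Finset.range (D + 1), k e :=
        Finset.single_le_sum (f := k) (fun e _ => Nat.zero_le _)
          (Finset.mem_range.2 (Nat.lt_succ_of_le heD))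
      omega)
    exact ⟨h4.1.trans h5, h4.2.trans h5⟩

end

end Pool.Agent.H15D
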